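import Pool.Agent.Helper98.Volt.Local

/-!
Binomial series of local multipliers `1 + C U`.
-/

set_option linter.unusedSectionVars false
set_option linter.deprecated false

namespace Volt

open Filter Topology

/-- binomial coefficients -/
noncomputable def bc (p : ℂ) : ℕ → ℂ
  | 0 => 1
  | j+1 => bc p j * ((p - j) / (j + 1))

@[simp] lemma bc_zero (p : ℂ) : bc p 0 = 1 := rfl

lemma bc_succ (p : ℂ) (j : ℕ) : bc p (j+1) = bc p j * ((p - j) / (j + 1)) := rfl

lemma bc_absorb (p : ℂ) (j : ℕ) : ((j:ℂ) + 1) * bc p (j+1) = p * bc (p - 1) j := by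
  induction j with
  | zero => simp [bc_succ]
  | succ j ih =>
    have h1 : ((j:ℂ) + 1) ≠ 0 := by exact_mod_cast Nat.succ_ne_zero j
    have h2 : (((j+1:ℕ):ℂ) + 1) ≠ 0 := by exact_mod_cast Nat.succ_ne_zero (j+1)
    rw [bc_succ p (j+1), bc_succ (p-1) j]
    have h3 : (((j+1:ℕ):ℂ) + 1) * (bc p (j+1) * ((p - ((j+1:ℕ):ℂ)) / (((j+1:ℕ):ℂ) + 1)))
        = bc p (j+1) * (p - ((j+1:ℕ):ℂ)) := by field_simp
    have h4 : p * (bc (p-1) j * ((p - 1 - j) / (j + 1)))
        = (p * bc (p-1) j) * ((p - 1 - j) / (j+1)) := by ring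
    rw [h3, h4, ← ih]
    field_simp
    push_cast
    ring

lemma bc_pascal (p : ℂ) (j : ℕ) : bc (p-1) (j+1) + bc (p-1) j = bc p (j+1) := by
  have h1 : ((j:ℂ) + 1) ≠ 0 := by exact_mod_cast Nat.succ_ne_zero j
  apply mul_left_cancel₀ h1
  rw [bc_absorb, bc_succ, mul_add]
  field_simp
  ring

lemma norm_bc_le (p : ℂ) (j : ℕ) : ‖bc p j‖ ≤ (‖p‖ + 1) ^ j := by
  induction j with
  | zero => simp
  | succ j ih =>
    rw [bc_succ, norm_mul, pow_succ]
    have hj : (0:ℝ) < (j:ℝ) + 1 := by positivity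
    have h1 : ‖((j:ℂ) + 1)‖ = (j:ℝ) + 1 := by
      have : ((j:ℂ) + 1) = (((j+1:ℕ):ℝ) : ℂ) := by push_cast; rfl
      rw [this, Complex.norm_real, Real.norm_of_nonneg (by positivity)]
      push_cast; rfl
    have h2 : ‖(p - j) / ((j:ℂ) + 1)‖ ≤ ‖p‖ + 1 := by
      rw [norm_div, h1, div_le_iff₀ hj]
      have h3 : ‖p - j‖ ≤ ‖p‖ + j := by
        refine (norm_sub_le _ _).trans ?_
        rw [Complex.norm_natCast]
      have h4 : 0 ≤ ‖p‖ := norm_nonneg p
      have h5 : (0:ℝ) ≤ j := Nat.cast_nonneg j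
      nlinarith [mul_nonneg h4 h5]
    exact mul_le_mul ih h2 (norm_nonneg _) (by positivity)

lemma bc_zero_succ (j : ℕ) : bc 0 (j+1) = 0 := by
  induction j with
  | zero => simp [bc_succ]
  | succ j ih => rw [bc_succ, ih, zero_mul]

variable {A : Type*} [NonUnitalNormedCommRing A] [NormedSpace ℂ A] [IsScalarTower ℂ A A]
  [SMulCommClass ℂ A A]

namespace VD

variable {V : VD A}

lemma U_pow_mul (j : ℕ) (f g : A) : (V.U ^ j) (f * g) = (V.U ^ j) f * g := by
  induction j with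
  | zero => simp
  | succ j ih =>
    rw [pow_succ', ContinuousLinearMap.mul_apply, ContinuousLinearMap.mul_apply, ih, U_apply,
      U_apply, mul_assoc]

lemma norm_U_pow_succ (j : ℕ) : ‖V.U ^ (j+1)‖ ≤ 1 / (Nat.factorial j : ℝ) :=
  ContinuousLinearMap.opNorm_le_bound _ (by positivity) (fun f => V.norm_U_pow_succ_le j f)

lemma norm_U_pow (j : ℕ) : ‖V.U ^ j‖ ≤ 1 / (Nat.factorial (j-1) : ℝ) := by
  cases j with
  | zero =>
    simp only [pow_zero, zero_tsub, Nat.factorial_zero, Nat.cast_one, div_one]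
    exact ContinuousLinearMap.opNorm_le_bound _ zero_le_one (fun f => by simp)
  | succ j => exact norm_U_pow_succ j

/-- the terms `C^(j+1) U^j` -/
noncomputable def LL (V : VD A) (C : A →L[ℂ] A) (j : ℕ) : A →L[ℂ] A := C ^ (j+1) * V.U ^ j

lemma LL_apply (C : A →L[ℂ] A) (j : ℕ) (f : A) : V.LL C j f = (C ^ (j+1)) ((V.U ^ j) f) := rfl

lemma norm_LL_le (C : A →L[ℂ] A) (j : ℕ) :
    ‖V.LL C j‖ ≤ ‖C‖ ^ (j+1) * (1 / (Nat.factorial (j-1) : ℝ)) := by
  refine (norm_mul_le _ _).trans ?_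
  gcongr
  · exact norm_pow_le' _ (Nat.succ_pos _)
  · exact norm_U_pow j

lemma IsMul.LL {a : ℝ} {C : A →L[ℂ] A} (hC : V.IsMul a C) (j : ℕ) : V.IsMul a (V.LL C j) := by
  intro f g
  rw [LL_apply, LL_apply, U_pow_mul, IsMul.pow_succ V hC j]

lemma summable_aux (p : ℂ) {c : ℝ} (hc : 0 ≤ c) {F : ℕ → A →L[ℂ] A}
    (hF : ∀ j, ‖F j‖ ≤ c ^ (j+1) * (1 / (Nat.factorial (j-1) : ℝ))) :
    Summable (fun j => ‖bc p (j+1) • F j‖) := by
  rw [← summable_nat_add_iff 1]
  set q := (‖p‖ + 1) * c with hq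
  have hq0 : 0 ≤ q := by positivity
  refine Summable.of_nonneg_of_le (fun _ => norm_nonneg _) (fun j => ?_)
    ((Real.summable_pow_div_factorial q).mul_left (q ^ 2))
  rw [norm_smul]
  have h1 := norm_bc_le p (j+1+1)
  have h2 := hF (j+1)
  rw [Nat.add_sub_cancel] at h2
  calc ‖bc p (j+1+1)‖ * ‖F (j+1)‖
      ≤ (‖p‖ + 1) ^ (j+1+1) * (c ^ (j+1+1) * (1 / (Nat.factorial j : ℝ))) := by gcongr
    _ = q ^ 2 * (q ^ j / (Nat.factorial j : ℝ)) := by
        have e1 : (‖p‖ + 1) ^ (j+1+1) * (c ^ (j+1+1) * (1 / (Nat.factorial j : ℝ)))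
            = ((‖p‖ + 1) ^ (j+1+1) * c ^ (j+1+1)) * (1 / (Nat.factorial j : ℝ)) := by ring
        rw [e1, ← mul_pow, ← hq]; ring

lemma summable_norm_Lc (p : ℂ) (C : A →L[ℂ] A) : Summable (fun j => ‖bc p (j+1) • V.LL C j‖) :=
  summable_aux p (norm_nonneg C) (fun j => norm_LL_le C j)

/-- `(1 + C U)^p - 1 = Lc p C * U` -/
noncomputable def Lc (V : VD A) (p : ℂ) (C : A →L[ℂ] A) : A →L[ℂ] A :=
  ∑' j, bc p (j+1) • V.LL C j

/-- `(1 + C U)^p` -/
noncomputable def bs (V : VD A) (p : ℂ) (C : A →L[ℂ] A) : A →L[ℂ] A :=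
  1 + V.Lc p C * V.U

variable [CompleteSpace A]

lemma hasSum_Lc (p : ℂ) (C : A →L[ℂ] A) : HasSum (fun j => bc p (j+1) • V.LL C j) (V.Lc p C) :=
  (summable_norm_Lc p C).of_norm.hasSum

variable {a : ℝ} {C : A →L[ℂ] A}

lemma IsMul.Lc (hC : V.IsMul a C) (p : ℂ) : V.IsMul a (V.Lc p C) := by
  refine IsMul.of_tendsto V (hasSum_Lc p C) ?_
  intro s f g
  rw [ContinuousLinearMap.sum_apply, ContinuousLinearMap.sum_apply, Finset.sum_mul, map_sum]
  exact Finset.sum_congr rfl fun j _ => ((hC.LL j).smul _) f g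

lemma IsMul.LL_mul_U (hC : V.IsMul a C) (j : ℕ) : V.LL C j * V.U = (C * V.U) ^ (j+1) := by
  ext f
  rw [IsMul.CU_pow V hC, ContinuousLinearMap.mul_apply, LL_apply, _root_.pow_succ V.U j,
    ContinuousLinearMap.mul_apply]

lemma IsMul.hasSum_bs (hC : V.IsMul a C) (p : ℂ) :
    HasSum (fun j => bc p j • (C * V.U) ^ j) (V.bs p C) := by
  have h1 := (hasSum_Lc (V := V) p C).mul_right V.U
  have h2 : HasSum (fun j => bc p (j+1) • (C * V.U) ^ (j+1)) (V.Lc p C * V.U) := by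
    have e : (fun j => bc p (j+1) • (C * V.U) ^ (j+1))
        = fun j => (bc p (j+1) • V.LL C j) * V.U := by
      funext j
      rw [smul_mul_assoc, hC.LL_mul_U]
    rw [e]; exact h1
  have h3 : HasSum (fun j => bc p (j+1) • (C * V.U) ^ (j+1)) (V.bs p C - 1) := by
    unfold bs
    rwa [add_sub_cancel_left]
  have h4 : HasSum (fun j => bc p j • (C * V.U) ^ j) (V.bs p C - 1 + 1) := by
    have := (hasSum_nat_add_iff (f := fun j => bc p j • (C * V.U) ^ j) 1).1 h3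
    simpa using this
  rwa [sub_add_cancel] at h4

/-- `(1+W) (1+W)^(p-1) = (1+W)^p` -/
lemma IsMul.bs_succ (hC : V.IsMul a C) (p : ℂ) :
    (1 + C * V.U) * V.bs (p - 1) C = V.bs p C := by
  have h1 := hC.hasSum_bs (p - 1)
  have h2 := h1.mul_left (C * V.U)
  have h3 : HasSum (fun j => bc (p-1) (j+1) • (C * V.U) ^ (j+1)) (V.bs (p-1) C - 1) := by
    rw [hasSum_nat_add_iff (f := fun j => bc (p-1) j • (C * V.U) ^ j) 1]
    simpa using h1
  have h4 := h3.add h2
  have h5 : HasSum (fun j => bc p (j+1) • (C * V.U) ^ (j+1))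
      (V.bs (p-1) C - 1 + C * V.U * V.bs (p-1) C) := by
    have e : (fun j => bc p (j+1) • (C * V.U) ^ (j+1))
        = fun j => bc (p-1) (j+1) • (C * V.U) ^ (j+1) +
          C * V.U * (bc (p-1) j • (C * V.U) ^ j) := by
      funext j
      rw [mul_smul_comm, ← pow_succ', ← add_smul, bc_pascal]
    rw [e]; exact h4
  have h6 : HasSum (fun j => bc p (j+1) • (C * V.U) ^ (j+1)) (V.bs p C - 1) := by
    rw [hasSum_nat_add_iff (f := fun j => bc p j • (C * V.U) ^ j) 1]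
    simpa using hC.hasSum_bs p
  have h7 := h5.unique h6
  rw [add_mul, one_mul]
  have h8 : V.bs p C = V.bs p C - 1 + 1 := by rw [sub_add_cancel]
  rw [h8, ← h7]; abel

lemma bs_zero : V.bs 0 C = 1 := by
  have h1 : V.Lc 0 C = 0 := by
    unfold Lc
    simp only [bc_zero_succ, zero_smul, tsum_zero]
  rw [bs, h1, zero_mul, add_zero]

lemma IsMul.W (hC : V.IsMul a C) : V.IsMul a (C * V.U) := by
  intro f g
  rw [ContinuousLinearMap.mul_apply, ContinuousLinearMap.mul_apply, U_apply, U_apply, ← mul_assoc,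
    hC]

/-- commutator of the binomial series -/
lemma IsMul.bracket_bs (hC : V.IsMul a C) (p : ℂ) :
    V.X * V.bs p C - V.bs p C * V.X
      = p • (V.bs (p-1) C * (V.X * (C * V.U) - C * V.U * V.X)) := by
  have hW := hC.W
  set W := C * V.U with hWdef
  set D := V.X * W - W * V.X with hD
  have h0 := hC.hasSum_bs p
  have h1 := (h0.mul_left V.X).sub (h0.mul_right V.X)
  have h3 : HasSum (fun j : ℕ => V.X * (bc p (j+1) • W ^ (j+1)) - (bc p (j+1) • W ^ (j+1)) * V.X)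
      (V.X * V.bs p C - V.bs p C * V.X) := by
    rw [hasSum_nat_add_iff (f := fun j : ℕ => V.X * (bc p j • W ^ j) - (bc p j • W ^ j) * V.X) 1]
    simpa using h1
  have h4 : ∀ j : ℕ, V.X * (bc p (j+1) • W ^ (j+1)) - (bc p (j+1) • W ^ (j+1)) * V.X
      = p • ((bc (p-1) j • W ^ j) * D) := by
    intro j
    rw [mul_smul_comm, smul_mul_assoc, ← smul_sub, hW.bracket_pow, smul_smul, smul_mul_assoc,
      smul_smul, mul_comm (bc p (j+1)), bc_absorb]
  simp only [h4] at h3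
  exact h3.unique (((hC.hasSum_bs (p-1)).mul_right D).const_smul p)

/-- cancellation of `1 + C U` -/
lemma IsMul.cancel (hC : V.IsMul a C) {Z : A →L[ℂ] A} (h : (1 + C * V.U) * Z = 0) : Z = 0 := by
  obtain ⟨G, -, hG⟩ := IsMul.exists_inv V hC
  ext f
  have h1 : Z f + C (V.u * Z f) = 0 := by
    have := congrArg (fun S : A →L[ℂ] A => S f) h
    simpa [U_apply] using this
  have h2 := hG (Z f)
  rw [h1, map_zero] at h2
  rw [← h2]; rfl

lemma IsMul.comm_bs (hC : V.IsMul a C) {M : A →L[ℂ] A} (hM : V.IsMul a M) (p : ℂ) :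
    Commute M (V.bs p C) := by
  have h1 : M * (V.Lc p C * V.U) = (V.Lc p C * V.U) * M :=
    hM.comm (hC.Lc p).W
  unfold bs
  change M * (1 + V.Lc p C * V.U) = (1 + V.Lc p C * V.U) * M
  rw [mul_add, add_mul, h1, mul_one, one_mul]

end VD

end Volt
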