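import Pool.Agent.Helper98.Volt.Binom

/-!
`((1 + C U)^q)^p = 1 + C U` if `p q = 1`.
-/

set_option linter.unusedSectionVars false
set_option linter.deprecated false

namespace Volt

open Filter Topology

variable {A : Type*} [NonUnitalNormedCommRing A] [NormedSpace ℂ A] [IsScalarTower ℂ A A]
  [SMulCommClass ℂ A A]

namespace VD

variable {V : VD A}

lemma P_u_ne {ε : ℝ} (hε : 0 < ε) : V.P ε V.u ≠ 0 := by
  intro h
  have h1 : V.P (min ε 1) V.u = 0 := by
    have := congrArg (V.P (min ε 1)) h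
    rwa [V.P_P, map_zero, min_eq_left (min_le_left _ _)] at this
  have h2 := V.norm_Pu (min ε 1) (le_min hε.le zero_le_one) (min_le_right _ _)
  rw [h1, norm_zero] at h2
  have : 0 < min ε 1 := lt_min hε one_pos
  linarith

variable [CompleteSpace A] {a : ℝ} {C : A →L[ℂ] A}

lemma Lc_zero (p : ℂ) : V.Lc p (0 : A →L[ℂ] A) = 0 := by
  unfold Lc
  have : ∀ j, V.LL (0 : A →L[ℂ] A) j = 0 := by
    intro j
    unfold LL
    rw [zero_pow (Nat.succ_ne_zero j), zero_mul]
  simp only [this, smul_zero, tsum_zero]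

lemma IsMul.eq_zero_of_nonpos (ha : a ≤ 0) (hC : V.IsMul a C) : C = 0 := by
  ext f
  have := hC.P_apply f
  rw [V.P_nonpos a ha] at this
  rw [← this]; rfl

lemma IsMul.eq_of_mul_U {C' : A →L[ℂ] A} (h : C * V.U = C' * V.U) : C = C' := by
  apply V.ext_dense
  intro g
  exact congrArg (fun S : A →L[ℂ] A => S g) h

/-- a multiplier `E U` which commutes with `X` is zero -/
lemma IsMul.eq_zero_of_bracket {E : A →L[ℂ] A} (hE : V.IsMul a E)
    (h : V.X * (E * V.U) - E * V.U * V.X = 0) : E * V.U = 0 := by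
  rcases le_or_gt a 0 with ha | ha
  · rw [hE.eq_zero_of_nonpos ha, zero_mul]
  · obtain ⟨χ, hχ⟩ := hE.W.scalar V h
    by_cases h0 : χ = 0
    · rw [hχ, h0, zero_smul]
    · exfalso
      have h1 : V.IsMul a ((-χ⁻¹) • E) := hE.smul _
      have h2 : (1 + ((-χ⁻¹) • E) * V.U) * V.P a = 0 := by
        rw [smul_mul_assoc, hχ, smul_smul]
        have : -χ⁻¹ * χ = -1 := by field_simp
        rw [this]
        ext f
        simp
      have h3 := h1.cancel h2
      apply P_u_ne (V := V) ha
      rw [h3]; rfl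

theorem IsMul.Lc_Lc (hC : V.IsMul a C) {p q : ℂ} (hpq : p * q = 1) :
    V.Lc p (V.Lc q C) = C := by
  have hC' : V.IsMul a (V.Lc q C) := hC.Lc q
  set C' := V.Lc q C with hC'def
  have hbq : V.bs q C = 1 + C' * V.U := rfl
  have hW := hC.W
  have hW' := hC'.W
  have hbW := hC.comm_bs hW
  set W := C * V.U with hWd
  set W' := C' * V.U with hW'd
  have hD := hW.bracket
  have hD' := hW'.bracket
  set D := V.X * W - W * V.X with hDd
  set D' := V.X * W' - W' * V.X with hD'd
  -- the derivative of `W'`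
  have e1 : D' = q • (V.bs (q-1) C * D) := by
    have := hC.bracket_bs q
    rw [hbq, ← hWd, ← hDd] at this
    rw [← this, hD'd]; noncomm_ring
  have e2 : (1 + W) * D' = q • ((1 + W') * D) := by
    rw [e1, mul_smul_comm, ← mul_assoc, hWd, hC.bs_succ, hbq]
  set Y := V.bs p C' with hY
  have hYW : Commute W Y := hC'.comm_bs hW p
  have hYW' : Commute W' Y := hC'.comm_bs hW' p
  set B := V.X * Y - Y * V.X with hB
  have e3 : B = p • (V.bs (p-1) C' * D') := hC'.bracket_bs p
  have e4 : (1 + W') * B = p • (Y * D') := by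
    rw [e3, mul_smul_comm, ← mul_assoc, hW'd, hC'.bs_succ]
  have hWW' : Commute W W' := hW.comm hW'
  have c1 : Commute (1 + W) (1 + W') :=
    (Commute.one_left _).add_left ((Commute.one_right _).add_right hWW')
  have c2 : Commute (1 + W) Y := (Commute.one_left _).add_left hYW
  have c3 : Commute (1 + W') Y := (Commute.one_left _).add_left hYW'
  have e5 : (1 + W) * B = Y * D := by
    have h1 : (1 + W') * ((1 + W) * B - Y * D) = 0 := by
      have h2 : (1 + W') * ((1 + W) * B) = (1 + W') * (Y * D) := by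
        calc (1 + W') * ((1 + W) * B) = (1 + W) * ((1 + W') * B) := by
              rw [← mul_assoc, ← c1.eq, mul_assoc]
          _ = p • (Y * ((1 + W) * D')) := by
              rw [e4, mul_smul_comm, ← mul_assoc, c2.eq, mul_assoc]
          _ = Y * ((1 + W') * D) := by
              rw [e2, mul_smul_comm, smul_smul, hpq, one_smul]
          _ = (1 + W') * (Y * D) := by
              rw [← mul_assoc, ← c3.eq, mul_assoc]
      rw [mul_sub, h2, sub_self]
    exact sub_eq_zero.1 (hC'.cancel h1)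
  set J := V.bs (-1) C with hJ
  have e6 : (1 + W) * J = 1 := by
    have := hC.bs_succ 0
    rw [zero_sub, bs_zero] at this
    exact this
  have cJW : Commute (1 + W) J := (Commute.one_left _).add_left (hC.comm_bs hW (-1))
  have cJD : Commute D J := hC.comm_bs hD (-1)
  set BJ := V.X * J - J * V.X with hBJ
  have e7 : (1 + W) * BJ = -(J * D) := by
    have h1 : BJ = (-1 : ℂ) • (V.bs (-1-1) C * D) := hC.bracket_bs (-1)
    rw [h1, mul_smul_comm, ← mul_assoc, hWd, hC.bs_succ, neg_one_smul]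
  -- `Y J = 1`
  have hL1 := hC'.Lc p
  have hL2 := hC.Lc (-1)
  have hE : V.IsMul a (V.Lc p C' + V.Lc (-1) C + V.Lc p C' * V.U * V.Lc (-1) C) :=
    (hL1.add hL2).add (hL1.W.mul hL2)
  have hYJ : Y * J - 1 = (V.Lc p C' + V.Lc (-1) C + V.Lc p C' * V.U * V.Lc (-1) C) * V.U := by
    rw [hY, hJ, bs, bs]; noncomm_ring
  have h8 : V.X * (Y * J - 1) - (Y * J - 1) * V.X = 0 := by
    have h9 : V.X * (Y * J - 1) - (Y * J - 1) * V.X = B * J + Y * BJ := by
      rw [hB, hBJ]; noncomm_ring
    apply hC.cancel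
    rw [h9, ← hWd, mul_add, ← mul_assoc, e5, ← mul_assoc, c2.eq, mul_assoc Y (1 + W), e7, mul_neg,
      mul_assoc, cJD.eq, add_neg_cancel]
  rw [hYJ] at h8
  have h10 := hE.eq_zero_of_bracket h8
  rw [← hYJ, sub_eq_zero] at h10
  have h11 : Y = 1 + W := by
    calc Y = Y * ((1 + W) * J) := by rw [e6, mul_one]
      _ = (Y * J) * (1 + W) := by rw [cJW.eq, mul_assoc]
      _ = 1 + W := by rw [h10, one_mul]
  have h12 : V.Lc p C' * V.U = C * V.U := by
    have h13 : V.bs p C' = 1 + V.Lc p C' * V.U := rfl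
    rw [← hY, h11] at h13
    exact (add_left_cancel h13).symm
  exact IsMul.eq_of_mul_U h12

end VD

end Volt
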