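import Pool.Agent.Helper56.Volt.AbsPairs

/-!
The automorphism group acts freely on the elements with `α(f) = 0` (abstract form).
-/

set_option linter.unusedSectionVars false
set_option linter.deprecated false

namespace Volt

open Filter Topology

variable {A : Type*} [NonUnitalNormedCommRing A] [NormedSpace ℂ A] [IsScalarTower ℂ A A]
  [SMulCommClass ℂ A A]

namespace VD

variable {V : VD A}

/-- Titchmarsh's theorem as a property of the data -/
def Titch (V : VD A) : Prop := ∀ (T : ℝ) (f g : A), V.P T (f * g) = 0 →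
  (∀ ε : ℝ, 0 < ε → V.P ε g ≠ 0) → V.P T f = 0

/-- a local multiplier which kills an element with `α = 0` is zero -/
lemma IsMul.eq_zero_of_apply {a : ℝ} {C : A →L[ℂ] A} (hC : V.IsMul a C) (ht : Titch V) {k : A}
    (hk : ∀ ε : ℝ, 0 < ε → V.P ε k ≠ 0) (h : C k = 0) : C = 0 := by
  ext f
  have h1 : V.P a (C f * k) = 0 := by
    rw [hC.comm_apply f k, h, mul_zero, map_zero]
  have h2 := ht a (C f) k h1 hk
  rw [hC.P_apply] at h2
  simpa using h2

/-- `X` does not kill anything near `0` -/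
lemma P_X_ne {f : A} (hf : ∀ ε : ℝ, 0 < ε → V.P ε f ≠ 0) {b : ℝ} (hb : 0 < b) :
    V.P b (V.X f) ≠ 0 := by
  intro h
  set w := V.P b f with hw
  have h1 : V.X w = 0 := by rw [hw, ← V.P_X, h]
  have h2 : ∀ δ : ℝ, 0 < δ → w = V.P δ w := by
    intro δ hδ
    have e1 : V.P δ (w - V.P δ w) = 0 := by rw [map_sub, V.P_idem, sub_self]
    have e2 := V.le_X_norm δ hδ.le _ e1
    have e3 : V.X (w - V.P δ w) = 0 := by
      rw [map_sub, h1, ← V.P_X, h1, map_zero, sub_zero]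
    rw [e3, norm_zero] at e2
    have e4 : ‖w - V.P δ w‖ ≤ 0 := by
      by_contra hcon
      have := mul_pos hδ (not_le.1 hcon)
      linarith
    exact sub_eq_zero.1 (norm_le_zero_iff.1 e4)
  have h3 : Tendsto (fun δ => V.P δ w) (𝓝[>] 0) (𝓝 w) := by
    refine tendsto_const_nhds.congr' ?_
    filter_upwards [self_mem_nhdsWithin] with δ hδ
    exact h2 δ hδ
  have h4 : w = 0 := tendsto_nhds_unique h3 (V.P_tendsto_zero w)
  exact hf b hb h4

lemma norm_X_pow_succ_P {b : ℝ} (hb : 0 ≤ b) (f : A) (j : ℕ) :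
    ‖V.P b ((V.X ^ (j+1)) f)‖ ≤ b ^ j * ‖V.P b (V.X f)‖ := by
  induction j with
  | zero => simp
  | succ j ih =>
    rw [pow_succ' V.X (j+1), ContinuousLinearMap.mul_apply, V.P_X]
    have h1 := V.X_P_norm b hb ((V.X ^ (j+1)) f)
    refine h1.trans ?_
    calc b * ‖V.P b ((V.X ^ (j+1)) f)‖ ≤ b * (b ^ j * ‖V.P b (V.X f)‖) := by gcongr
      _ = b ^ (j+1) * ‖V.P b (V.X f)‖ := by ring

lemma IsMul.P_neg_pow {a b : ℝ} (hb : b ≤ a) {C : A →L[ℂ] A} (hC : V.IsMul a C) (j : ℕ) (w : A) :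
    V.P b (((-C) ^ j) w) = V.P b (((-C) ^ j) (V.P b w)) := by
  induction j with
  | zero => simp
  | succ j ih =>
    rw [pow_succ' (-C), ContinuousLinearMap.mul_apply, ContinuousLinearMap.mul_apply]
    have e : ∀ y, V.P b ((-C) y) = V.P b ((-C) (V.P b y)) := by
      intro y
      rw [ContinuousLinearMap.neg_apply, ContinuousLinearMap.neg_apply, map_neg, map_neg]
      have h1 := hC.P_apply_P hb y
      rw [← h1]
    rw [e, ih, ← e]

variable [CompleteSpace A]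

/-- terms of the operator `G` with `TT C f - f = -C (G f)` -/
noncomputable def gg (V : VD A) (C : A →L[ℂ] A) (f : A) (j : ℕ) : A :=
  ((Nat.factorial (j+1) : ℂ)⁻¹) • ((-C) ^ j) ((V.X ^ (j+1)) f)

lemma summable_gg (C : A →L[ℂ] A) (f : A) : Summable (V.gg C f) := by
  apply Summable.of_norm
  refine Summable.of_nonneg_of_le (fun _ => norm_nonneg _) (fun j => ?_)
    ((Real.summable_pow_div_factorial ‖C‖).mul_right ‖f‖)
  unfold gg
  rw [norm_smul, norm_inv, Complex.norm_natCast]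
  have h1 : ‖((-C) ^ j) ((V.X ^ (j+1)) f)‖ ≤ ‖C‖ ^ j * ‖(V.X ^ (j+1)) f‖ :=
    pow_apply_le (-C) (norm_nonneg C) (by
      intro f; rw [ContinuousLinearMap.neg_apply, norm_neg]; exact C.le_opNorm f) j _
  have h2 : ‖(V.X ^ (j+1)) f‖ ≤ ‖f‖ := V.norm_X_pow_le (j+1) f
  have h3 : (0:ℝ) < Nat.factorial j := by exact_mod_cast Nat.factorial_pos j
  have h4 : ((Nat.factorial (j+1) : ℝ))⁻¹ ≤ (Nat.factorial j : ℝ)⁻¹ := by
    apply inv_anti₀ h3
    exact_mod_cast Nat.factorial_le (Nat.le_succ j)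
  calc ((Nat.factorial (j+1) : ℝ))⁻¹ * ‖((-C) ^ j) ((V.X ^ (j+1)) f)‖
      ≤ (Nat.factorial j : ℝ)⁻¹ * (‖C‖ ^ j * ‖f‖) := by
        apply mul_le_mul h4 _ (norm_nonneg _) (by positivity)
        exact h1.trans (by gcongr)
    _ = ‖C‖ ^ j / (Nat.factorial j : ℝ) * ‖f‖ := by ring

/-- `TT C f = f - C (G f)` -/
lemma TT_eq (C : A →L[ℂ] A) (f : A) : V.TT C f = f - C (∑' j, V.gg C f j) := by
  have h1 := V.hasSum_TT_apply C f
  have h2 : HasSum (fun j => V.tt C (j+1) f) (V.TT C f - f) := by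
    rw [hasSum_nat_add_iff (f := fun j => V.tt C j f) 1]
    simpa [tt_apply] using h1
  have h3 : HasSum (fun j => (-C) (V.gg C f j)) ((-C) (∑' j, V.gg C f j)) :=
    (summable_gg C f).hasSum.mapL (-C)
  have h4 : (fun j => (-C) (V.gg C f j)) = fun j => V.tt C (j+1) f := by
    ext j
    rw [tt_apply, gg, map_smul, pow_succ' (-C) j]
    rfl
  rw [h4] at h3
  have h5 := h2.unique h3
  rw [ContinuousLinearMap.neg_apply] at h5
  rw [sub_eq_iff_eq_add] at h5
  rw [h5]; abel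

/-- `α(G f) = 0` -/
lemma IsMul.P_gg_ne {a : ℝ} (ha : 0 < a) {C : A →L[ℂ] A} (hC : V.IsMul a C) {f : A}
    (hf : ∀ ε : ℝ, 0 < ε → V.P ε f ≠ 0) {ε : ℝ} (hε : 0 < ε) :
    V.P ε (∑' j, V.gg C f j) ≠ 0 := by
  intro h0
  set c := ‖C‖ with hc
  have hc0 : 0 ≤ c := norm_nonneg C
  set b : ℝ := min (min ε a) (1 / (2 * (c + 1))) with hb
  have hb0 : 0 < b := lt_min (lt_min hε ha) (by positivity)
  have hbε : b ≤ ε := (min_le_left _ _).trans (min_le_left _ _)
  have hba : b ≤ a := (min_le_left _ _).trans (min_le_right _ _)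
  have hcb : c * b ≤ 1/2 := by
    have h1 : b ≤ 1 / (2 * (c + 1)) := min_le_right _ _
    have h2 : c * b ≤ (c + 1) * (1 / (2 * (c + 1))) := by
      apply mul_le_mul (by linarith) h1 hb0.le (by linarith)
    refine h2.trans (le_of_eq ?_)
    field_simp
  set s := ‖V.P b (V.X f)‖ with hs
  have hs0 : 0 < s := norm_pos_iff.2 (P_X_ne hf hb0)
  have hsum : HasSum (fun j => V.P b (V.gg C f j)) (V.P b (∑' j, V.gg C f j)) :=
    (summable_gg C f).hasSum.mapL (V.P b)
  have hz : V.P b (∑' j, V.gg C f j) = 0 := by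
    rw [← V.P_P_le hbε, h0, map_zero]
  rw [hz] at hsum
  have h1 : HasSum (fun j => V.P b (V.gg C f (j+1))) (0 - V.P b (V.gg C f 0)) := by
    rw [hasSum_nat_add_iff (f := fun j => V.P b (V.gg C f j)) 1]
    simpa using hsum
  have h2 : V.gg C f 0 = V.X f := by simp [gg]
  rw [h2, zero_sub] at h1
  have hterm : ∀ j, ‖V.P b (V.gg C f j)‖ ≤ (c * b) ^ j / (Nat.factorial (j+1) : ℝ) * s := by
    intro j
    unfold gg
    rw [map_smul, norm_smul, norm_inv, Complex.norm_natCast, hC.P_neg_pow hba]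
    have e1 : ‖V.P b (((-C) ^ j) (V.P b ((V.X ^ (j+1)) f)))‖ ≤ c ^ j * (b ^ j * s) := by
      refine (V.norm_P_le _ _).trans ((pow_apply_le (-C) hc0 (by
        intro f; rw [ContinuousLinearMap.neg_apply, norm_neg]; exact C.le_opNorm f) j _).trans ?_)
      gcongr
      exact norm_X_pow_succ_P hb0.le f j
    have e3 : (0:ℝ) < Nat.factorial (j+1) := by exact_mod_cast Nat.factorial_pos (j+1)
    calc ((Nat.factorial (j+1) : ℝ))⁻¹ * ‖V.P b (((-C) ^ j) (V.P b ((V.X ^ (j+1)) f)))‖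
        ≤ ((Nat.factorial (j+1) : ℝ))⁻¹ * (c ^ j * (b ^ j * s)) := by gcongr
      _ = (c * b) ^ j / (Nat.factorial (j+1) : ℝ) * s := by rw [mul_pow]; ring
  have hterm2 : ∀ j, ‖V.P b (V.gg C f (j+1))‖ ≤ (1/2) ^ (j+1) * (s / 2) := by
    intro j
    refine (hterm (j+1)).trans ?_
    have e1 : (c * b) ^ (j+1) ≤ (1/2) ^ (j+1) := by
      apply pow_le_pow_left₀ (by positivity) hcb
    have e2 : (2:ℝ) ≤ (Nat.factorial (j+1+1) : ℝ) := by
      have : Nat.factorial 2 ≤ Nat.factorial (j+1+1) := Nat.factorial_le (by omega)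
      have h3 : Nat.factorial 2 = 2 := rfl
      rw [h3] at this
      exact_mod_cast this
    calc (c * b) ^ (j+1) / (Nat.factorial (j+1+1) : ℝ) * s
        ≤ (1/2) ^ (j+1) / 2 * s := by
          apply mul_le_mul_of_nonneg_right _ hs0.le
          apply div_le_div₀ (by positivity) e1 (by norm_num) e2
      _ = _ := by ring
  have hgeo : HasSum (fun j : ℕ => ((1:ℝ)/2) ^ (j+1) * (s / 2)) (1 * (s / 2)) := by
    apply HasSum.mul_right
    have := (hasSum_geometric_two).mul_left (1/2 : ℝ)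
    have e : (fun j : ℕ => ((1:ℝ)/2) ^ (j+1)) = fun j => (1/2) * (1/2) ^ j := by
      ext j; rw [pow_succ']
    rw [e]
    simpa using this
  have h3 := h1.norm_le_of_bounded hgeo hterm2
  rw [norm_neg, one_mul] at h3
  have : s ≤ s / 2 := h3
  linarith

/-- if the truncation of `TT C f` equals that of `f` then `C = 0` -/
lemma IsMul.eq_zero_of_TT {a : ℝ} (ha : 0 < a) {C : A →L[ℂ] A} (hC : V.IsMul a C) (ht : Titch V)
    {f : A} (hf : ∀ ε : ℝ, 0 < ε → V.P ε f ≠ 0) (h : V.P a (V.TT C f) = V.P a f) : C = 0 := by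
  apply hC.eq_zero_of_apply ht (k := ∑' j, V.gg C f j) (fun ε hε => hC.P_gg_ne ha hf hε)
  rw [TT_eq, map_sub, sub_eq_self] at h
  rwa [hC.P_apply] at h

lemma CFam.eq_zero {C : ℕ → A →L[ℂ] A} {K : ℝ} (hC : V.CFam C K) (ht : Titch V)
    {f : A} (hf : ∀ ε : ℝ, 0 < ε → V.P ε f ≠ 0)
    (h : ∀ n, V.P (al n) (V.TT (C n) f) = V.P (al n) f) (n : ℕ) : C n = 0 := by
  rcases Nat.eq_zero_or_pos n with h0 | hpos
  · subst h0
    ext w
    have := (hC.mul 0).P_apply w
    rw [al_zero, V.P_nonpos 0 le_rfl] at this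
    rw [← this]; rfl
  · apply (hC.mul n).eq_zero_of_TT _ ht hf (h n)
    have := al_mono hpos
    rw [show (0:ℕ).succ = 1 from rfl, al_one] at this
    linarith

/-- **The automorphism group acts freely on `{α(f) = 0}`.** -/
theorem aut_free
    (hd : (Submodule.span ℂ (Set.range fun j : ℕ => (V.U ^ j) V.u)).topologicalClosure = ⊤)
    (ht : Titch V) (T : A →ₗ[ℂ] A) (hbij : Function.Bijective T)
    (hmul : ∀ f h, T (f * h) = T f * T h) {f : A} (hf : ∀ ε : ℝ, 0 < ε → V.P ε f ≠ 0)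
    (hfix : T f = f) : ∀ h, T h = h := by
  obtain ⟨C, K, hC, hT⟩ := aut_form hd T hbij hmul
  have h0 : ∀ n, C n = 0 := hC.eq_zero ht hf (fun n => by rw [← hT, hfix])
  intro h
  apply V.ext_al
  intro n
  rw [hT n h, h0 n]
  have : V.TT (0 : A →L[ℂ] A) h = h := by
    rw [TT_eq]; simp
  rw [this]

theorem aut_unique
    (hd : (Submodule.span ℂ (Set.range fun j : ℕ => (V.U ^ j) V.u)).topologicalClosure = ⊤)
    (ht : Titch V) (T T' : A →ₗ[ℂ] A) (hbij : Function.Bijective T)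
    (hmul : ∀ f h, T (f * h) = T f * T h) (hbij' : Function.Bijective T')
    (hmul' : ∀ f h, T' (f * h) = T' f * T' h) {f : A} (hf : ∀ ε : ℝ, 0 < ε → V.P ε f ≠ 0)
    (hfix : T f = T' f) : T = T' := by
  let e : A ≃ₗ[ℂ] A := LinearEquiv.ofBijective T' hbij'
  have he : ∀ x, T' (e.symm x) = x := fun x => e.apply_symm_apply x
  have he' : ∀ x, e.symm (T' x) = x := fun x => e.symm_apply_apply x
  have h1 := aut_free hd ht ((e.symm : A →ₗ[ℂ] A) ∘ₗ T) (e.symm.bijective.comp hbij)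
    (fun x y => by
      apply hbij'.1
      change T' (e.symm (T (x * y))) = T' (e.symm (T x) * e.symm (T y))
      rw [he, hmul', he, he, hmul]) hf (by
      change e.symm (T f) = f
      rw [hfix, he'])
  ext x
  have h2 : e.symm (T x) = x := h1 x
  rw [← he (T x), h2]

/-- automorphisms preserve `α = 0` : uses the local form -/
lemma CFam.alpha_T {C : ℕ → A →L[ℂ] A} {K : ℝ} (hC : V.CFam C K) {T : A → A}
    (hT : ∀ n f, V.P (al n) (T f) = V.P (al n) (V.TT (C n) f)) {f : A}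
    (hf : ∀ ε : ℝ, 0 < ε → V.P ε f ≠ 0) {ε : ℝ} (hε : 0 < ε) : V.P ε (T f) ≠ 0 := by
  intro h0
  set c := ‖C 1‖ with hc
  have hc0 : 0 ≤ c := norm_nonneg _
  set b : ℝ := min (min ε (1/2)) (1 / (4 * (c + 1))) with hb
  have hb0 : 0 < b := lt_min (lt_min hε (by norm_num)) (by positivity)
  have hbε : b ≤ ε := (min_le_left _ _).trans (min_le_left _ _)
  have hba : b ≤ 1/2 := (min_le_left _ _).trans (min_le_right _ _)
  have hcb : c * b ≤ 1/4 := by
    have h1 : b ≤ 1 / (4 * (c + 1)) := min_le_right _ _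
    have h2 : c * b ≤ (c + 1) * (1 / (4 * (c + 1))) := by
      apply mul_le_mul (by linarith) h1 hb0.le (by linarith)
    refine h2.trans (le_of_eq ?_)
    field_simp
  have hM : V.IsMul (1/2) (C 1) := by have := hC.mul 1; rwa [al_one] at this
  have h1 : V.P b (V.TT (C 1) f) = 0 := by
    have e1 := hT 1 f
    rw [al_one] at e1
    rw [← V.P_P_le hba, ← e1, V.P_P_le hba, ← V.P_P_le hbε, h0, map_zero]
  -- sum of the terms
  have hsum : HasSum (fun j => V.P b (V.tt (C 1) j f)) (V.P b (V.TT (C 1) f)) :=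
    (V.hasSum_TT_apply (C 1) f).mapL (V.P b)
  rw [h1] at hsum
  have h2 : HasSum (fun j => V.P b (V.tt (C 1) (j+1) f)) (0 - V.P b (V.tt (C 1) 0 f)) := by
    rw [hasSum_nat_add_iff (f := fun j => V.P b (V.tt (C 1) j f)) 1]
    simpa using hsum
  have h3 : V.tt (C 1) 0 f = f := by simp [tt_apply]
  rw [h3, zero_sub] at h2
  set s := ‖V.P b f‖ with hs
  have hs0 : 0 < s := norm_pos_iff.2 (hf b hb0)
  have hX : ∀ j : ℕ, ‖V.P b ((V.X ^ j) f)‖ ≤ b ^ j * s := by
    intro j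
    induction j with
    | zero => simp [hs]
    | succ j ih =>
      rw [pow_succ' V.X j, ContinuousLinearMap.mul_apply, V.P_X]
      refine (V.X_P_norm b hb0.le _).trans ?_
      calc b * ‖V.P b ((V.X ^ j) f)‖ ≤ b * (b ^ j * s) := by gcongr
        _ = b ^ (j+1) * s := by ring
  have hterm : ∀ j, ‖V.P b (V.tt (C 1) (j+1) f)‖ ≤ (1/4) ^ (j+1) * ((1:ℝ) / (j+1).factorial * s) := by
    intro j
    rw [tt_apply, map_smul, norm_smul, norm_inv, Complex.norm_natCast, hM.P_neg_pow hba]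
    have e1 : ‖V.P b (((-(C 1)) ^ (j+1)) (V.P b ((V.X ^ (j+1)) f)))‖ ≤ c ^ (j+1) * (b ^ (j+1) * s) := by
      refine (V.norm_P_le _ _).trans ((pow_apply_le (-(C 1)) hc0 (by
        intro f; rw [ContinuousLinearMap.neg_apply, norm_neg]; exact (C 1).le_opNorm f) (j+1) _).trans ?_)
      gcongr
      exact hX (j+1)
    have e3 : (0:ℝ) < Nat.factorial (j+1) := by exact_mod_cast Nat.factorial_pos (j+1)
    have e4 : (c * b) ^ (j+1) ≤ (1/4) ^ (j+1) := pow_le_pow_left₀ (by positivity) hcb (j+1)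
    calc ((Nat.factorial (j+1) : ℝ))⁻¹ * ‖V.P b (((-(C 1)) ^ (j+1)) (V.P b ((V.X ^ (j+1)) f)))‖
        ≤ ((Nat.factorial (j+1) : ℝ))⁻¹ * (c ^ (j+1) * (b ^ (j+1) * s)) := by gcongr
      _ = (c * b) ^ (j+1) * (1 / (Nat.factorial (j+1) : ℝ) * s) := by rw [mul_pow]; ring
      _ ≤ (1/4) ^ (j+1) * (1 / (Nat.factorial (j+1) : ℝ) * s) := by gcongr
  have hterm2 : ∀ j, ‖V.P b (V.tt (C 1) (j+1) f)‖ ≤ (1/2) ^ (j+1) * (s / 2) := by
    intro j
    refine (hterm j).trans ?_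
    have e3 : (1:ℝ) ≤ Nat.factorial (j+1) := by exact_mod_cast Nat.factorial_pos (j+1)
    have e4 : (1:ℝ) / (Nat.factorial (j+1) : ℝ) ≤ 1 := by rw [div_le_one (by linarith)]; exact e3
    have e5 : ((1:ℝ)/4) ^ (j+1) ≤ (1/2) ^ (j+1) * (1/2) := by
      have e6 : ((1:ℝ)/4) ^ (j+1) = (1/2) ^ (j+1) * (1/2) ^ (j+1) := by
        rw [← mul_pow]; norm_num
      rw [e6]
      apply mul_le_mul_of_nonneg_left _ (by positivity)
      rw [pow_succ]
      have : ((1:ℝ)/2) ^ j ≤ 1 := pow_le_one₀ (by norm_num) (by norm_num)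
      linarith
    have e7 : (1:ℝ) / (Nat.factorial (j+1) : ℝ) * s ≤ 1 * s := mul_le_mul_of_nonneg_right e4 hs0.le
    calc ((1:ℝ)/4) ^ (j+1) * ((1:ℝ) / (j+1).factorial * s)
        ≤ ((1/2) ^ (j+1) * (1/2)) * (1 * s) := by
          apply mul_le_mul e5 e7 (by positivity) (by positivity)
      _ = _ := by ring
  have hgeo : HasSum (fun j : ℕ => ((1:ℝ)/2) ^ (j+1) * (s / 2)) (1 * (s / 2)) := by
    apply HasSum.mul_right
    have := (hasSum_geometric_two).mul_left (1/2 : ℝ)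
    have e : (fun j : ℕ => ((1:ℝ)/2) ^ (j+1)) = fun j => (1/2) * (1/2) ^ j := by
      ext j; rw [pow_succ']
    rw [e]
    simpa using this
  have h4 := h2.norm_le_of_bounded hgeo hterm2
  rw [norm_neg, one_mul] at h4
  have : s ≤ s / 2 := h4
  linarith

end VD

end Volt
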