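import Pool.Agent.Helper98.Volt.BinomInv

/-!
The class is closed under binomial powers: `Lc p` of a compatible family of growth `2^n` has
growth `2^n`.
-/

set_option linter.unusedSectionVars false
set_option linter.deprecated false

namespace Volt

open Filter Topology

lemma summable_half (y : ℝ) : Summable (fun m : ℕ => y ^ m / (Nat.factorial (m / 2) : ℝ)) := by
  have h0 := Real.summable_pow_div_factorial (y ^ 2)
  have h1 : HasSum (fun i : ℕ => y ^ (2*i) / (Nat.factorial ((2*i) / 2) : ℝ))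
      (∑' i, (y^2)^i / (Nat.factorial i : ℝ)) := by
    have e : (fun i : ℕ => y ^ (2*i) / (Nat.factorial ((2*i) / 2) : ℝ))
        = fun i => (y^2)^i / (Nat.factorial i : ℝ) := by
      funext i
      rw [Nat.mul_div_cancel_left i (by norm_num), pow_mul]
    rw [e]; exact h0.hasSum
  have h2 : HasSum (fun i : ℕ => y ^ (2*i+1) / (Nat.factorial ((2*i+1) / 2) : ℝ))
      (y * ∑' i, (y^2)^i / (Nat.factorial i : ℝ)) := by
    have e : (fun i : ℕ => y ^ (2*i+1) / (Nat.factorial ((2*i+1) / 2) : ℝ))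
        = fun i => y * ((y^2)^i / (Nat.factorial i : ℝ)) := by
      funext i
      have : (2*i+1)/2 = i := by omega
      rw [this, pow_succ, pow_mul]; ring
    rw [e]; exact h0.hasSum.mul_left y
  exact (h1.even_add_odd h2).summable

/-- the bound sequence -/
noncomputable def EE (c : ℝ) (j : ℕ) : ℝ := ((j:ℝ) + 1) * c ^ j / (Nat.factorial ((j - 3) / 2) : ℝ)

lemma summable_EE {q c : ℝ} (hq : 0 ≤ q) (hc : 0 ≤ c) : Summable (fun j => q ^ (j+1) * EE c j) := by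
  rw [← summable_nat_add_iff 3]
  refine Summable.of_nonneg_of_le (fun j => ?_) (fun j => ?_)
    ((summable_half (2 * (q * c))).mul_left (16 * q ^ 4 * c ^ 3))
  · unfold EE; positivity
  · unfold EE
    have e1 : (j + 3 - 3) / 2 = j / 2 := by omega
    rw [e1]
    have e2 : ((j + 3 : ℕ) : ℝ) + 1 ≤ 16 * 2 ^ j := by
      have : j + 3 + 1 ≤ 16 * 2 ^ j := by
        have h := Nat.lt_two_pow_self (n := j)
        omega
      exact_mod_cast this
    calc q ^ (j+3+1) * ((((j + 3 : ℕ) : ℝ) + 1) * c ^ (j+3) / (Nat.factorial (j/2) : ℝ))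
        ≤ q ^ (j+3+1) * ((16 * 2 ^ j) * c ^ (j+3) / (Nat.factorial (j/2) : ℝ)) := by gcongr
      _ = 16 * q ^ 4 * c ^ 3 * ((2 * (q * c)) ^ j / (Nat.factorial (j/2) : ℝ)) := by
          rw [mul_pow, mul_pow]; ring

variable {A : Type*} [NonUnitalNormedCommRing A] [NormedSpace ℂ A] [IsScalarTower ℂ A A]
  [SMulCommClass ℂ A A]

namespace VD

variable {V : VD A}

/-- the product formula for the terms -/
lemma IsMul.LL_add {a : ℝ} {C : A →L[ℂ] A} (hC : V.IsMul a C) (i k : ℕ) (f : A) :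
    V.LL C (i + k + 1) f = V.P a (V.LL C k V.u * V.LL C i f) := by
  have h1 := IsMul.pow_succ V hC k
  have h2 := IsMul.pow_succ V hC i
  set y := (V.U ^ i) f with hy
  have e1 : V.LL C (i + k + 1) f = (C ^ (k+1)) ((C ^ (i+1)) ((V.U ^ (k+1)) y)) := by
    have e2 : V.U ^ (i + k + 1) = V.U ^ (k + 1) * V.U ^ i := by
      rw [← pow_add]; congr 1; ring
    have e3 : C ^ (i + k + 1 + 1) = C ^ (k + 1) * C ^ (i + 1) := by
      rw [← pow_add]; congr 1; ring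
    rw [LL_apply, e2, e3]
    rfl
  have e4 : V.P a (V.LL C k V.u * V.LL C i f) = (C ^ (k+1)) ((V.U ^ k) V.u * (C ^ (i+1)) y) := by
    rw [LL_apply, LL_apply, h1]
  rw [e1, e4, U_pow_succ_apply, h2.mul_apply', h1.apply_P]

/-- norm bound at level `1/2` -/
lemma IsMul.norm_half_pow {a : ℝ} (ha : 1/2 ≤ a) {C : A →L[ℂ] A} (hC : V.IsMul a C) {c : ℝ}
    (hc : 0 ≤ c) (h : ∀ f, ‖V.P (1/2) (C f)‖ ≤ c * ‖f‖) (j : ℕ) (f : A) :
    ‖V.P (1/2) ((C ^ j) f)‖ ≤ c ^ j * ‖f‖ := by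
  have h' : ∀ f, ‖V.P (1/2) (C f)‖ ≤ c * ‖V.P (1/2) f‖ := by
    intro f
    rw [← hC.P_apply_P ha]
    exact h _
  induction j with
  | zero => simpa using V.norm_P_le _ _
  | succ j ih =>
    rw [pow_succ', ContinuousLinearMap.mul_apply]
    refine (h' _).trans ?_
    calc c * ‖V.P (1/2) ((C ^ j) f)‖ ≤ c * (c ^ j * ‖f‖) := by gcongr
      _ = c ^ (j+1) * ‖f‖ := by ring

lemma IsMul.norm_half_LL {a : ℝ} (ha : 1/2 ≤ a) {C : A →L[ℂ] A} (hC : V.IsMul a C) {c : ℝ}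
    (hc : 0 ≤ c) (h : ∀ f, ‖V.P (1/2) (C f)‖ ≤ c * ‖f‖) (j : ℕ) (f : A) :
    ‖V.P (1/2) (V.LL C j f)‖ ≤ c ^ (j+1) / (Nat.factorial (j-1) : ℝ) * ‖f‖ := by
  rw [LL_apply]
  refine (hC.norm_half_pow ha hc h (j+1) _).trans ?_
  have h1 := (V.U ^ j).le_opNorm f
  have h2 := norm_U_pow (V := V) j
  calc c ^ (j+1) * ‖(V.U ^ j) f‖ ≤ c ^ (j+1) * (1 / (Nat.factorial (j-1) : ℝ) * ‖f‖) := by
        gcongr
        exact h1.trans (by gcongr)
    _ = _ := by ring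

/-- rough bound -/
lemma IsMul.norm_LL_rough {a : ℝ} (ha : 1/2 ≤ a) {C : A →L[ℂ] A} (hC : V.IsMul a C) {c B : ℝ}
    (hc : 0 ≤ c) (hB : 0 ≤ B) (h : ∀ f, ‖V.P (1/2) (C f)‖ ≤ c * ‖f‖) (hn : ∀ f, ‖C f‖ ≤ B * ‖f‖)
    (j : ℕ) (f : A) : ‖V.LL C j f‖ ≤ ((j:ℝ) + 1) * c ^ j * B * ‖f‖ := by
  induction j with
  | zero => simpa [LL_apply] using hn f
  | succ j ih =>
    have h1 := hC.LL_add j 0 f
    rw [add_zero] at h1
    rw [h1]
    refine (V.norm_P_mul_split a _ _).trans ?_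
    have e1 : ‖V.P (1/2) (V.LL C 0 V.u)‖ ≤ c := by
      have := hC.norm_half_LL ha hc h 0 V.u
      simpa [norm_u] using this
    have e2 : ‖V.P a (V.LL C j f)‖ ≤ ((j:ℝ) + 1) * c ^ j * B * ‖f‖ := (V.norm_P_le _ _).trans ih
    have e3 : ‖V.P a (V.LL C 0 V.u)‖ ≤ B := by
      refine (V.norm_P_le _ _).trans ?_
      have := hn V.u
      simpa [LL_apply, norm_u] using this
    have e4 : ‖V.P (1/2) (V.LL C j f)‖ ≤ c ^ (j+1) * ‖f‖ := by
      refine (hC.norm_half_LL ha hc h j f).trans ?_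
      have h5 : (1:ℝ) ≤ (Nat.factorial (j-1) : ℝ) := by exact_mod_cast Nat.factorial_pos _
      gcongr
      exact div_le_self (by positivity) h5
    calc ‖V.P (1/2) (V.LL C 0 V.u)‖ * ‖V.P a (V.LL C j f)‖
          + ‖V.P a (V.LL C 0 V.u)‖ * ‖V.P (1/2) (V.LL C j f)‖
        ≤ c * (((j:ℝ) + 1) * c ^ j * B * ‖f‖) + B * (c ^ (j+1) * ‖f‖) := by gcongr
      _ = (((j+1:ℕ):ℝ) + 1) * c ^ (j+1) * B * ‖f‖ := by push_cast; ring

/-- fine bound -/
lemma IsMul.norm_LL_fine {a : ℝ} (ha : 1/2 ≤ a) {C : A →L[ℂ] A} (hC : V.IsMul a C) {c B : ℝ}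
    (hc : 0 ≤ c) (hB : 0 ≤ B) (h : ∀ f, ‖V.P (1/2) (C f)‖ ≤ c * ‖f‖) (hn : ∀ f, ‖C f‖ ≤ B * ‖f‖)
    (j : ℕ) (f : A) : ‖V.LL C j f‖ ≤ EE c j * B * ‖f‖ := by
  by_cases hj : j < 3
  · refine (hC.norm_LL_rough ha hc hB h hn j f).trans (le_of_eq ?_)
    have : (j - 3) / 2 = 0 := by omega
    rw [EE, this, Nat.factorial_zero, Nat.cast_one, div_one]
  · obtain ⟨m, rfl⟩ : ∃ m, j = m + 3 := ⟨j - 3, by omega⟩
    set i := m / 2 + 1 with hi
    set k := m + 1 - m / 2 with hk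
    have hik : i + k + 1 = m + 3 := by omega
    have hm2 : m / 2 ≤ k - 1 := by omega
    have hi1 : i - 1 = m / 2 := by omega
    have hF : (0:ℝ) < (Nat.factorial (m/2) : ℝ) := by exact_mod_cast Nat.factorial_pos _
    rw [← hik, hC.LL_add i k f]
    refine (V.norm_P_mul_split a _ _).trans ?_
    have e1 : ‖V.P (1/2) (V.LL C k V.u)‖ ≤ c ^ (k+1) / (Nat.factorial (m/2) : ℝ) := by
      have h1 := hC.norm_half_LL ha hc h k V.u
      rw [norm_u, mul_one] at h1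
      refine h1.trans ?_
      have h2 : (Nat.factorial (m/2) : ℝ) ≤ (Nat.factorial (k-1) : ℝ) := by
        exact_mod_cast Nat.factorial_le hm2
      exact div_le_div_of_nonneg_left (by positivity) hF h2
    have e2 : ‖V.P a (V.LL C i f)‖ ≤ ((i:ℝ) + 1) * c ^ i * B * ‖f‖ :=
      (V.norm_P_le _ _).trans (hC.norm_LL_rough ha hc hB h hn i f)
    have e3 : ‖V.P a (V.LL C k V.u)‖ ≤ ((k:ℝ) + 1) * c ^ k * B := by
      have h1 := (V.norm_P_le a _).trans (hC.norm_LL_rough ha hc hB h hn k V.u)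
      rwa [norm_u, mul_one] at h1
    have e4 : ‖V.P (1/2) (V.LL C i f)‖ ≤ c ^ (i+1) / (Nat.factorial (m/2) : ℝ) * ‖f‖ := by
      have h1 := hC.norm_half_LL ha hc h i f
      rwa [hi1] at h1
    have hEE : EE c (i + k + 1) = ((i:ℝ) + k + 2) * c ^ (i + k + 1) / (Nat.factorial (m/2) : ℝ) := by
      rw [EE]
      have : (i + k + 1 - 3) / 2 = m / 2 := by omega
      rw [this]; push_cast; ring
    calc ‖V.P (1/2) (V.LL C k V.u)‖ * ‖V.P a (V.LL C i f)‖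
          + ‖V.P a (V.LL C k V.u)‖ * ‖V.P (1/2) (V.LL C i f)‖
        ≤ (c ^ (k+1) / (Nat.factorial (m/2) : ℝ)) * (((i:ℝ) + 1) * c ^ i * B * ‖f‖)
          + (((k:ℝ) + 1) * c ^ k * B) * (c ^ (i+1) / (Nat.factorial (m/2) : ℝ) * ‖f‖) := by gcongr
      _ = EE c (i + k + 1) * B * ‖f‖ := by rw [hEE]; ring

variable [CompleteSpace A]

/-- norm bound for `Lc` -/
lemma IsMul.norm_Lc_le {a : ℝ} (ha : 1/2 ≤ a) {C : A →L[ℂ] A} (hC : V.IsMul a C) {c B : ℝ}
    (hc : 0 ≤ c) (hB : 0 ≤ B) (h : ∀ f, ‖V.P (1/2) (C f)‖ ≤ c * ‖f‖) (hn : ∀ f, ‖C f‖ ≤ B * ‖f‖)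
    (p : ℂ) (f : A) : ‖V.Lc p C f‖ ≤ (∑' j, (‖p‖ + 1) ^ (j+1) * EE c j) * B * ‖f‖ := by
  have h1 : HasSum (fun j => (bc p (j+1) • V.LL C j) f) (V.Lc p C f) :=
    (hasSum_Lc p C).mapL (ContinuousLinearMap.apply ℂ A f)
  have hs := summable_EE (q := ‖p‖ + 1) (c := c) (by positivity) hc
  have h2 : HasSum (fun j => (‖p‖ + 1) ^ (j+1) * EE c j * B * ‖f‖)
      ((∑' j, (‖p‖ + 1) ^ (j+1) * EE c j) * B * ‖f‖) := (hs.hasSum.mul_right B).mul_right ‖f‖
  refine h1.norm_le_of_bounded h2 (fun j => ?_)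
  rw [ContinuousLinearMap.smul_apply, norm_smul]
  have h3 := norm_bc_le p (j+1)
  have h4 := hC.norm_LL_fine ha hc hB h hn j f
  calc ‖bc p (j+1)‖ * ‖V.LL C j f‖ ≤ (‖p‖ + 1) ^ (j+1) * (EE c j * B * ‖f‖) := by gcongr
    _ = _ := by ring

/-- compatibility -/
lemma P_LL_compat {a b : ℝ} (hb : b ≤ a) {C C' : A →L[ℂ] A} (hC' : V.IsMul b C')
    (h : ∀ f, V.P b (C f) = V.P b (C' f)) (j : ℕ) (f : A) : V.P b (V.LL C j f) = V.LL C' j f := by
  rw [LL_apply, LL_apply, P_pow_congr h (fun f => by rw [hC'.apply_P]),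
    (IsMul.pow_succ V hC' j).P_apply]

/-- **The class is closed under binomial powers.** -/
theorem CFam.Lc {C : ℕ → A →L[ℂ] A} {K : ℝ} (hC : V.CFam C K) (p : ℂ) :
    V.CFam (fun n => V.Lc p (C n)) ((∑' j, (‖p‖ + 1) ^ (j+1) * EE (2 * K) j) * K) := by
  have hK := hC.nonneg
  have hS : 0 ≤ ∑' j, (‖p‖ + 1) ^ (j+1) * EE (2 * K) j :=
    tsum_nonneg fun j => by unfold EE; positivity
  refine ⟨by positivity, fun n => (hC.mul n).Lc p, fun n => ?_, fun n f => ?_⟩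
  · ext f
    have h1 : HasSum (fun j => V.P (al n) ((bc p (j+1) • V.LL (C (n+1)) j) f))
        (V.P (al n) (V.Lc p (C (n+1)) f)) :=
      ((hasSum_Lc p (C (n+1))).mapL (ContinuousLinearMap.apply ℂ A f)).mapL (V.P (al n))
    have h2 : HasSum (fun j => (bc p (j+1) • V.LL (C n) j) f) (V.Lc p (C n) f) :=
      (hasSum_Lc p (C n)).mapL (ContinuousLinearMap.apply ℂ A f)
    rw [ContinuousLinearMap.mul_apply]
    refine h1.unique ?_
    have e : (fun j => V.P (al n) ((bc p (j+1) • V.LL (C (n+1)) j) f))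
        = fun j => (bc p (j+1) • V.LL (C n) j) f := by
      funext j
      rw [ContinuousLinearMap.smul_apply, ContinuousLinearMap.smul_apply, map_smul,
        P_LL_compat (al_mono (Nat.le_succ n)) (hC.mul n)]
      intro f
      rw [compat_le hC.compat (Nat.le_succ n), (hC.mul n).P_apply]
    rw [e]; exact h2
  · rcases Nat.eq_zero_or_pos n with h0 | hpos
    · subst h0
      have h1 : V.Lc p (C 0) = 0 :=
        ((hC.mul 0).Lc p).eq_zero_of_nonpos (le_of_eq al_zero)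
      simp only [h1, ContinuousLinearMap.zero_apply, norm_zero]
      positivity
    · have ha : 1/2 ≤ al n := by rw [← al_one]; exact al_mono hpos
      have h1 := (hC.mul n).norm_Lc_le ha (c := 2 * K) (B := K * 2 ^ n) (by positivity)
        (by positivity) (fun f => hC.bound_half n f) (fun f => hC.bound n f) p f
      calc ‖V.Lc p (C n) f‖ ≤ (∑' j, (‖p‖ + 1) ^ (j+1) * EE (2 * K) j) * (K * 2 ^ n) * ‖f‖ := h1
        _ = _ := by ring

end VD

end Volt
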