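import Pool.Agent.Helper98.Volt.Free

/-!
Local version: `P b (T f) = P b (T' f)` for one `f` with `α(f) = 0` iff the generators agree on
level `b`.
-/

set_option linter.unusedSectionVars false
set_option linter.deprecated false

namespace Volt

open Filter Topology

variable {A : Type*} [NonUnitalNormedCommRing A] [NormedSpace ℂ A] [IsScalarTower ℂ A A]
  [SMulCommClass ℂ A A]

namespace VD

variable {V : VD A}

variable [CompleteSpace A]

lemma IsMul.P_neg {a b : ℝ} (hb : b ≤ a) {C : A →L[ℂ] A} (hC : V.IsMul a C) (f : A) :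
    V.P b ((-C) (V.P b f)) = V.P b ((-C) f) := by
  rw [ContinuousLinearMap.neg_apply, ContinuousLinearMap.neg_apply, map_neg, map_neg,
    hC.P_apply_P hb]

/-- truncated operators agree if the truncated multipliers agree -/
lemma IsMul.P_TT_congr {a a' b : ℝ} (hb : b ≤ a) (hb' : b ≤ a') {C C' : A →L[ℂ] A}
    (_hC : V.IsMul a C) (hC' : V.IsMul a' C') (h : ∀ f, V.P b (C f) = V.P b (C' f)) (f : A) :
    V.P b (V.TT C f) = V.P b (V.TT C' f) := by
  have e1 := (V.hasSum_TT_apply C f).mapL (V.P b)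
  have e2 := (V.hasSum_TT_apply C' f).mapL (V.P b)
  refine e1.unique ?_
  convert e2 using 1
  funext j
  rw [tt_apply, tt_apply, map_smul, map_smul]
  congr 1
  apply P_pow_congr
  · intro f
    rw [ContinuousLinearMap.neg_apply, ContinuousLinearMap.neg_apply, map_neg, map_neg, h]
  · intro f
    exact hC'.P_neg hb' f

lemma IsMul.P_TT_P {a b : ℝ} (hb : b ≤ a) {C : A →L[ℂ] A} (hC : V.IsMul a C) (f : A) :
    V.P b (V.TT (V.P b * C) f) = V.P b (V.TT C f) :=
  IsMul.P_TT_congr le_rfl hb (hC.restrict hb) hC (fun f => by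
    rw [ContinuousLinearMap.mul_apply, V.P_idem]) f

/-- **Local uniqueness.** -/
theorem local_unique
    (hd : (Submodule.span ℂ (Set.range fun j : ℕ => (V.U ^ j) V.u)).topologicalClosure = ⊤)
    (ht : Titch V) (hu0 : ∀ ε : ℝ, 0 < ε → V.P ε V.u ≠ 0)
    {C C' : ℕ → A →L[ℂ] A} {K K' : ℝ} {T T' : A →L[ℂ] A}
    (hC : V.CFam C K) (hC' : V.CFam C' K')
    (hb1 : Function.Bijective T) (hb2 : Function.Bijective T')
    (hT : ∀ n f, V.P (al n) (T f) = V.P (al n) (V.TT (C n) f))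
    (hT' : ∀ n f, V.P (al n) (T' f) = V.P (al n) (V.TT (C' n) f))
    {f : A} (hf : ∀ ε : ℝ, 0 < ε → V.P ε f ≠ 0) {b : ℝ} (hb0 : 0 < b) (hb : b < 1)
    (h : V.P b (T f) = V.P b (T' f)) (n : ℕ) (hn : b ≤ al n) :
    V.P b * C n = V.P b * C' n := by
  have hm := CFam.T_mul hC hT
  have hm' := CFam.T_mul hC' hT'
  let e : A ≃ₗ[ℂ] A := LinearEquiv.ofBijective (T' : A →ₗ[ℂ] A) hb2
  have he : ∀ x, T' (e.symm x) = x := fun x => e.apply_symm_apply x
  have he' : ∀ x, e.symm (T' x) = x := fun x => e.symm_apply_apply x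
  have hmS : ∀ x y, e.symm (x * y) = e.symm x * e.symm y := by
    intro x y
    apply hb2.1
    rw [he, hm', he, he]
  -- the inverse of `T'` is local
  obtain ⟨C3, K3, hC3, hT3⟩ := aut_form hd (e.symm : A →ₗ[ℂ] A) e.symm.bijective hmS
  obtain ⟨T3, hT3b, hT3m, hT3e⟩ := form_aut hC3
  have e3 : ∀ x, e.symm x = T3 x := by
    intro x
    apply V.ext_al
    intro n
    rw [hT3e n x]
    exact hT3 n x
  have hloc3 : ∀ x, V.P b (e.symm (V.P b x)) = V.P b (e.symm x) := by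
    intro x
    rw [e3, e3]
    exact CFam.P_T hC3 hT3e hb x
  -- the composite
  set R : A →ₗ[ℂ] A := (e.symm : A →ₗ[ℂ] A) ∘ₗ (T : A →ₗ[ℂ] A) with hR
  have hRa : ∀ x, R x = e.symm (T x) := fun x => rfl
  obtain ⟨C4, K4, hC4, hT4⟩ := aut_form hd R (e.symm.bijective.comp hb1) (fun x y => by
    rw [hRa, hRa, hRa, hm, hmS])
  have hRf : V.P b (R f) = V.P b f := by
    rw [hRa, ← hloc3, h, hloc3, he']
  have hD : V.IsMul b (V.P b * C4 n) := (hC4.mul n).restrict hn
  have hD0 : V.P b * C4 n = 0 := by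
    apply hD.eq_zero_of_TT hb0 ht hf
    rw [(hC4.mul n).P_TT_P hn, ← V.P_P_le hn, ← hT4, V.P_P_le hn, hRf]
  have hRall : ∀ x, V.P b (R x) = V.P b x := by
    intro x
    rw [← V.P_P_le hn, hT4, V.P_P_le hn, ← (hC4.mul n).P_TT_P hn, hD0, TT_eq]
    simp
  have hTT : ∀ x, V.P b (T x) = V.P b (T' x) := by
    intro x
    have e1 : T x = T' (R x) := by rw [hRa, he]
    rw [e1, ← CFam.P_T hC' hT' hb (R x), hRall, CFam.P_T hC' hT' hb]
  -- generators at level `b`
  have h1 := congrArg (V.P b) (CFam.T_u_eq hC hT n)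
  have h2 := congrArg (V.P b) (CFam.T_u_eq hC' hT' n)
  rw [V.P_P_le hn, V.P_P_le hn, map_add] at h1 h2
  set g := T V.u with hg
  have hgg : V.P b g = V.P b (T' V.u) := hTT V.u
  have h3 : V.P b (V.u * (C n g - C' n (T' V.u))) = 0 := by
    rw [mul_sub, map_sub]
    have e1 : V.P b (V.u * C n g) = V.P b V.u - V.P b g := by rw [← h1]; abel
    have e2 : V.P b (V.u * C' n (T' V.u)) = V.P b V.u - V.P b g := by rw [← h2, hgg]; abel
    rw [e1, e2, sub_self]
  have h4 := V.u_mul_inj h3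
  have h5 : (V.P b * C n - V.P b * C' n) g = 0 := by
    rw [ContinuousLinearMap.sub_apply, ContinuousLinearMap.mul_apply, ContinuousLinearMap.mul_apply,
      ← (hC'.mul n).P_apply_P hn g, hgg, (hC'.mul n).P_apply_P hn, ← map_sub]
    exact h4
  have h6 : ∀ ε : ℝ, 0 < ε → V.P ε g ≠ 0 := fun ε hε =>
    CFam.alpha_T hC (T := T) hT (f := V.u) hu0 hε
  have h7 := (((hC.mul n).restrict hn).sub ((hC'.mul n).restrict hn)).eq_zero_of_apply ht h6 h5
  exact sub_eq_zero.1 h7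

/-- converse -/
theorem local_conv {C C' : ℕ → A →L[ℂ] A} {K K' : ℝ} {T T' : A →L[ℂ] A}
    (hC : V.CFam C K) (hC' : V.CFam C' K')
    (hT : ∀ n f, V.P (al n) (T f) = V.P (al n) (V.TT (C n) f))
    (hT' : ∀ n f, V.P (al n) (T' f) = V.P (al n) (V.TT (C' n) f))
    {b : ℝ} (n : ℕ) (hn : b ≤ al n) (h : V.P b (C n V.u) = V.P b (C' n V.u)) (f : A) :
    V.P b (T f) = V.P b (T' f) := by
  have h1 : V.P b * C n = V.P b * C' n := by
    apply IsMul.ext_u V ((hC.mul n).restrict hn) ((hC'.mul n).restrict hn)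
    exact h
  rw [← V.P_P_le hn, hT, V.P_P_le hn, ← V.P_P_le hn (T' f), hT', V.P_P_le hn]
  apply IsMul.P_TT_congr hn hn (hC.mul n) (hC'.mul n)
  intro x
  exact congrArg (fun S : A →L[ℂ] A => S x) h1

end VD

end Volt
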