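import Pool.Agent.Helper98.Volt.Param
import Pool.Agent.Helper98.Volt.Local

/-!
Concrete form of the local uniqueness.
-/

set_option linter.unusedSectionVars false
set_option linter.deprecated false

namespace Volt

open MeasureTheory Set Filter Topology

namespace L1

lemma ae_Icc_iff {b : ℝ} {F G : ℝ → ℂ} :
    (∀ᵐ t ∂(volume.restrict (Icc (0:ℝ) b)), F t = G t) ↔ ∀ᵐ t, t ∈ Ico 0 b → F t = G t := by
  rw [← Measure.restrict_congr_set (Ico_ae_eq_Icc (μ := volume) (a := (0:ℝ)) (b := b)),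
    ae_restrict_iff' measurableSet_Ico]

lemma rep_apply {f : L1} {t : ℝ} (ht : t ∈ Ico (0:ℝ) 1) : rep f t = f t :=
  indicator_of_mem ht _

lemma P_eq_coe_iff {b : ℝ} (hb : b ≤ 1) {f g : L1} :
    P b f = P b g ↔ ∀ᵐ t ∂(volume.restrict (Icc (0:ℝ) b)), f t = g t := by
  rw [P_eq_iff, ae_Icc_iff]
  constructor
  · intro h
    filter_upwards [h] with t h1 h2
    have h3 := h1 h2.2
    have h4 : t ∈ Ico (0:ℝ) 1 := ⟨h2.1, h2.2.trans_le hb⟩
    rwa [rep_apply h4, rep_apply h4] at h3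
  · intro h
    filter_upwards [h] with t h1 h2
    rcases lt_or_ge t 0 with h0 | h0
    · rw [rep_neg f h0, rep_neg g h0]
    · have h4 : t ∈ Ico (0:ℝ) 1 := ⟨h0, h2.trans_le hb⟩
      rw [rep_apply h4, rep_apply h4]
      exact h1 ⟨h0, h2⟩

lemma loc_P_iff {N N' : ℝ → ℂ} {Z Z' : ℕ → L1} (h : Loc N Z) (h' : Loc N' Z') {b : ℝ} {n : ℕ}
    (hn : b ≤ al n) :
    P b (Z n) = P b (Z' n) ↔ ∀ᵐ t ∂(volume.restrict (Icc (0:ℝ) b)), N t = N' t := by
  rw [P_eq_iff, ae_Icc_iff]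
  constructor
  · intro h1
    filter_upwards [h1, h n, h' n] with t h2 h3 h4 ht
    have ht' : t ∈ Ico 0 (al n) := ⟨ht.1, ht.2.trans_le hn⟩
    rw [h3 ht', h4 ht', h2 ht.2]
  · intro h1
    filter_upwards [h1, h n, h' n] with t h2 h3 h4 ht
    rcases lt_or_ge t 0 with h0 | h0
    · rw [rep_neg _ h0, rep_neg _ h0]
    · have ht' : t ∈ Ico 0 (al n) := ⟨h0, ht.trans_le hn⟩
      rw [← h3 ht', ← h4 ht', h2 ⟨h0, ht⟩]

lemma ae_all_al {F G : ℝ → ℂ} :
    (∀ᵐ t ∂(volume.restrict (Icc (0:ℝ) 1)), F t = G t) ↔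
      ∀ n, ∀ᵐ t ∂(volume.restrict (Icc (0:ℝ) (al n))), F t = G t := by
  simp only [ae_Icc_iff]
  rw [← ae_all_iff]
  constructor
  · intro h
    filter_upwards [h] with t h1 n ht
    exact h1 ⟨ht.1, ht.2.trans (al_lt_one n)⟩
  · intro h
    filter_upwards [h] with t h1 ht
    obtain ⟨n, hn⟩ := exists_al' ht.2
    have h2 : t < al (n+1) := hn.trans_lt (by
      unfold al
      have : ((1:ℝ)/2)^(n+1) < (1/2)^n := by
        rw [pow_succ]
        have : (0:ℝ) < (1/2)^n := by positivity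
        linarith
      linarith)
    exact h1 (n+1) ⟨ht.1, h2⟩

lemma P_u_ne' : ∀ ε : ℝ, 0 < ε → vd.P ε vd.u ≠ 0 := fun _ hε => P_u_ne hε

lemma N_local_aux {N N' : ℝ → ℂ} (hN : BVC N) (hN' : BVC N') {f g g' : L1}
    (hf : ∀ ε : ℝ, 0 < ε → P ε f ≠ 0) (h : Expands N f g) (h' : Expands N' f g') {b : ℝ}
    (hb0 : 0 < b) (hb : b < 1) :
    (∀ᵐ t ∂(volume.restrict (Icc (0:ℝ) b)), g t = g' t) ↔
      ∀ᵐ t ∂(volume.restrict (Icc (0:ℝ) b)), N t = N' t := by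
  obtain ⟨C, K, T, hC, hloc, hb1, hm, hT, hE⟩ := bv_data hN
  obtain ⟨C', K', T', hC', hloc', hb1', hm', hT', hE'⟩ := bv_data hN'
  have hg : T f = g := (hE f g).1 h
  have hg' : T' f = g' := (hE' f g').1 h'
  obtain ⟨n, hn⟩ := exists_al' hb
  rw [← P_eq_coe_iff hb.le, ← loc_P_iff hloc hloc' hn, ← hg, ← hg']
  constructor
  · intro h1
    have h2 := VD.local_unique (V := vd) span_dense titch_vd P_u_ne' hC hC' hb1 hb1' hT hT' hf
      hb0 hb h1 n hn
    exact congrArg (fun S : L1 →L[ℂ] L1 => S u) h2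
  · intro h1
    exact VD.local_conv (V := vd) hC hC' hT hT' n hn h1 f

/-- **Local uniqueness**: for `α(f) = 0`, `g` on `[0,b]` determines `N` on `[0,b]` and conversely. -/
theorem N_local {N N' : ℝ → ℂ} (hN : BVC N) (hN' : BVC N') {f g g' : L1}
    (hf : ∀ ε : ℝ, 0 < ε → P ε f ≠ 0) (h : Expands N f g) (h' : Expands N' f g') {b : ℝ}
    (hb : b ≤ 1) :
    (∀ᵐ t ∂(volume.restrict (Icc (0:ℝ) b)), g t = g' t) ↔
      ∀ᵐ t ∂(volume.restrict (Icc (0:ℝ) b)), N t = N' t := by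
  rcases le_or_gt b 0 with h0 | h0
  · have h1 : Ico 0 b = ∅ := Ico_eq_empty (not_lt.2 h0)
    rw [ae_Icc_iff, ae_Icc_iff, h1]
    simp
  rcases lt_or_eq_of_le hb with h1 | rfl
  · exact N_local_aux hN hN' hf h h' h0 h1
  · rw [ae_all_al, ae_all_al]
    apply forall_congr'
    intro n
    rcases Nat.eq_zero_or_pos n with hn | hn
    · subst hn
      have h1 : Ico 0 (al 0) = ∅ := by rw [al_zero]; simp
      rw [ae_Icc_iff, ae_Icc_iff, h1]
      simp
    · apply N_local_aux hN hN' hf h h' _ (al_lt_one n)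
      have := al_mono (show 1 ≤ n from hn)
      rw [al_one] at this
      linarith

lemma ne_zero_iff {f : L1} {ε : ℝ} (hε : ε ≤ 1) :
    P ε f ≠ 0 ↔ ¬ ∀ᵐ t ∂(volume.restrict (Icc (0:ℝ) ε)), f t = 0 := by
  have h1 : P ε f = 0 ↔ ∀ᵐ t ∂(volume.restrict (Icc (0:ℝ) ε)), f t = 0 := by
    have h0 : P ε (0 : L1) = 0 := map_zero _
    rw [← h0, P_eq_coe_iff hε]
    have h2 : ∀ᵐ t ∂(volume.restrict (Icc (0:ℝ) ε)), (0 : L1) t = 0 := by
      have h3 := Lp.coeFn_zero ℂ 1 mu0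
      have h4 : ∀ᵐ t ∂(volume.restrict (Icc (0:ℝ) 1)), (0 : L1) t = 0 := by
        filter_upwards [h3] with t ht
        rw [ht]; rfl
      exact ae_restrict_of_ae_restrict_of_subset (Icc_subset_Icc_right hε) h4
    constructor
    · intro h
      filter_upwards [h, h2] with t h3 h4
      rw [h3, h4]
    · intro h
      filter_upwards [h, h2] with t h3 h4
      rw [h3, h4]
  rw [Ne, h1]

/-- the automorphism is determined by `T f` -/
theorem T_unique {T T' : L1 →ₗ[ℂ] L1} (h1 : Function.Bijective T)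
    (h2 : ∀ f g : L1, T (f * g) = T f * T g) (h1' : Function.Bijective T')
    (h2' : ∀ f g : L1, T' (f * g) = T' f * T' g) {f : L1} (hf : ∀ ε : ℝ, 0 < ε → P ε f ≠ 0)
    (h : T f = T' f) : T = T' :=
  VD.aut_unique (V := vd) span_dense titch_vd T T' h1 h2 h1' h2' hf h

/-- automorphisms preserve `α = 0` -/
theorem T_alpha {T : L1 →ₗ[ℂ] L1} (h1 : Function.Bijective T)
    (h2 : ∀ f g : L1, T (f * g) = T f * T g) {f : L1} (hf : ∀ ε : ℝ, 0 < ε → P ε f ≠ 0) {ε : ℝ}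
    (hε : 0 < ε) : P ε (T f) ≠ 0 := by
  obtain ⟨C, K, hC, hT⟩ := VD.aut_form (V := vd) span_dense T h1 h2
  exact VD.CFam.alpha_T (V := vd) hC (T := T) hT hf hε

end L1

end Volt
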