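import Mathlib

/-!
Two measure theoretic lemmas for Titchmarsh's theorem.
-/

namespace Volt

open MeasureTheory Set Filter Topology

/-- an integrable function on `[0,1]` all of whose moments vanish is zero -/
lemma ae_zero_of_moments {K : ℝ → ℂ} (hK : Integrable K) (hs : ∀ s, s ∉ Icc (0:ℝ) 1 → K s = 0)
    (hm : ∀ n : ℕ, ∫ s : ℝ, (s:ℂ)^n * K s = 0) : ∀ᵐ s, K s = 0 := by
  have hb : ∀ n : ℕ, Integrable (fun s : ℝ => (s:ℂ)^n * K s) := by
    intro n
    refine Integrable.mono' hK.norm ?_ (Eventually.of_forall fun s => ?_)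
    · exact (by fun_prop : Continuous fun s : ℝ => (s:ℂ)^n).aestronglyMeasurable.mul
        hK.aestronglyMeasurable
    · by_cases h : s ∈ Icc (0:ℝ) 1
      · rw [norm_mul, norm_pow, Complex.norm_real, Real.norm_eq_abs, abs_of_nonneg h.1]
        have : s^n ≤ 1 := pow_le_one₀ h.1 h.2
        have := norm_nonneg (K s)
        nlinarith
      · rw [hs s h]; simp
  -- polynomials
  have hpoly : ∀ p : Polynomial ℝ, Integrable (fun s : ℝ => ((p.eval s : ℝ) : ℂ) * K s) ∧
      ∫ s, ((p.eval s : ℝ) : ℂ) * K s = 0 := by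
    intro p
    have e : (fun s : ℝ => ((p.eval s : ℝ) : ℂ) * K s) =
        fun s : ℝ => ∑ i ∈ Finset.range (p.natDegree + 1), ((p.coeff i : ℝ) : ℂ) * ((s:ℂ)^i * K s) := by
      ext s
      rw [Polynomial.eval_eq_sum_range]
      push_cast
      rw [Finset.sum_mul]
      refine Finset.sum_congr rfl fun i _ => ?_
      ring
    rw [e]
    refine ⟨integrable_finset_sum _ fun i _ => (hb i).const_mul _, ?_⟩
    rw [integral_finset_sum _ fun i _ => (hb i).const_mul _]
    refine Finset.sum_eq_zero fun i _ => ?_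
    rw [integral_const_mul, hm, mul_zero]
  apply ae_eq_zero_of_integral_contDiff_smul_eq_zero hK.locallyIntegrable
  intro φ hφ _
  rw [← norm_eq_zero]
  have hφc : Continuous φ := hφ.continuous
  have hφi : Integrable (fun s : ℝ => (φ s : ℝ) • K s) := by
    obtain ⟨B, hB⟩ := (isCompact_Icc (a := (0:ℝ)) (b := 1)).exists_bound_of_continuousOn
      hφc.continuousOn
    refine Integrable.mono' (hK.norm.const_mul B) ?_ (Eventually.of_forall fun s => ?_)
    · exact hφc.aestronglyMeasurable.smul hK.aestronglyMeasurable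
    · by_cases h : s ∈ Icc (0:ℝ) 1
      · rw [norm_smul]
        exact mul_le_mul_of_nonneg_right (hB s h) (norm_nonneg _)
      · rw [hs s h]; simp
  apply le_antisymm _ (norm_nonneg _)
  apply le_of_forall_pos_le_add
  intro ε hε
  rw [zero_add]
  set N := ∫ s, ‖K s‖ with hN
  have hN0 : 0 ≤ N := integral_nonneg fun _ => norm_nonneg _
  obtain ⟨p, hp⟩ := exists_polynomial_near_of_continuousOn 0 1 φ hφc.continuousOn (ε / (N + 1))
    (by positivity)
  have e1 : ∫ s, (φ s : ℝ) • K s = ∫ s, ((φ s : ℝ) • K s - ((p.eval s : ℝ) : ℂ) * K s) := by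
    rw [integral_sub hφi (hpoly p).1, (hpoly p).2, sub_zero]
  rw [e1]
  calc ‖∫ s, ((φ s : ℝ) • K s - ((p.eval s : ℝ) : ℂ) * K s)‖
      ≤ ∫ s, ‖(φ s : ℝ) • K s - ((p.eval s : ℝ) : ℂ) * K s‖ := norm_integral_le_integral_norm _
    _ ≤ ∫ s, ε / (N + 1) * ‖K s‖ := by
        apply integral_mono_of_nonneg (Eventually.of_forall fun _ => norm_nonneg _)
          (hK.norm.const_mul _)
        refine Eventually.of_forall fun s => ?_
        by_cases h : s ∈ Icc (0:ℝ) 1
        · have e2 : (φ s : ℝ) • K s - ((p.eval s : ℝ) : ℂ) * K s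
              = ((φ s - p.eval s : ℝ) : ℂ) * K s := by
            rw [Complex.real_smul]; push_cast; ring
          simp only [e2, norm_mul, Complex.norm_real, Real.norm_eq_abs]
          apply mul_le_mul_of_nonneg_right _ (norm_nonneg _)
          rw [abs_sub_comm]
          exact (hp s h).le
        · simp only [hs s h, smul_zero, mul_zero, sub_self, norm_zero, le_refl]
    _ = ε / (N + 1) * N := by rw [integral_const_mul]
    _ ≤ ε := by
        rw [div_mul_eq_mul_div, div_le_iff₀ (by linarith)]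
        nlinarith

/-- if `F(t-s) G(s) = 0` for almost every `s`, for almost every `t < T`, and `G` does not vanish
near `0`, then `F` vanishes on `(-∞,T)` -/
lemma ae_zero_of_prod {F G : ℝ → ℂ} (hF : AEStronglyMeasurable F volume)
    (hG : AEStronglyMeasurable G volume) {T : ℝ}
    (h : ∀ᵐ t, t < T → ∀ᵐ s, F (t - s) * G s = 0)
    (hne : ∀ ε : ℝ, 0 < ε → ¬ ∀ᵐ s, s < ε → G s = 0) : ∀ᵐ r, r < T → F r = 0 := by
  obtain ⟨F', hF'm, hF'⟩ := hF
  obtain ⟨G', hG'm, hG'⟩ := hG
  have h1 : ∀ᵐ t, ∀ᵐ s, t < T → F' (t - s) * G' s = 0 := by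
    filter_upwards [h] with t ht
    by_cases htT : t < T
    · have e1 : ∀ᵐ s, F (t - s) = F' (t - s) :=
        (Measure.measurePreserving_sub_left volume t).quasiMeasurePreserving.ae hF'
      filter_upwards [ht htT, e1, hG'] with s h2 h3 h4 _
      rw [← h3, ← h4, h2]
    · exact Eventually.of_forall fun s h => absurd h htT
  have hmeas : MeasurableSet {x : ℝ × ℝ | x.1 < T → F' (x.1 - x.2) * G' x.2 = 0} := by
    have e1 : {x : ℝ × ℝ | x.1 < T → F' (x.1 - x.2) * G' x.2 = 0}
        = {x : ℝ × ℝ | x.1 < T}ᶜ ∪ {x : ℝ × ℝ | F' (x.1 - x.2) * G' x.2 = 0} := by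
      ext x
      simp only [mem_ofPred_eq, mem_union, mem_compl_iff]
      tauto
    rw [e1]
    refine MeasurableSet.union (measurableSet_lt measurable_fst measurable_const).compl ?_
    have m1 : Measurable (fun x : ℝ × ℝ => F' (x.1 - x.2) * G' x.2) :=
      (hF'm.measurable.comp (measurable_fst.sub measurable_snd)).mul
        (hG'm.measurable.comp measurable_snd)
    exact m1 (measurableSet_singleton 0)
  have h2 : ∀ᵐ s, ∀ᵐ t, t < T → F' (t - s) * G' s = 0 :=
    (Measure.ae_ae_comm (μ := volume) (ν := volume)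
      (p := fun t s => t < T → F' (t - s) * G' s = 0) hmeas).1 h1
  -- for every ε > 0, `F = 0` on `(-∞, T - ε)`
  have h3 : ∀ ε : ℝ, 0 < ε → ∀ᵐ r, r < T - ε → F' r = 0 := by
    intro ε hε
    have h4 : ∃ s, s < ε ∧ G' s ≠ 0 ∧ ∀ᵐ t, t < T → F' (t - s) * G' s = 0 := by
      by_contra hcon
      apply hne ε hε
      filter_upwards [h2, hG'] with s hs1 hs2 hs3
      rw [hs2]
      by_contra hs4
      exact hcon ⟨s, hs3, hs4, hs1⟩
    obtain ⟨s, hs1, hs2, hs3⟩ := h4
    have h5 : ∀ᵐ r, r + s < T → F' (r + s - s) * G' s = 0 :=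
      (measurePreserving_add_right volume s).quasiMeasurePreserving.ae hs3
    filter_upwards [h5] with r hr1 hr2
    have := hr1 (by linarith)
    rw [add_sub_cancel_right] at this
    exact (mul_eq_zero.1 this).resolve_right hs2
  have h6 : ∀ᵐ r, ∀ n : ℕ, r < T - 1 / ((n:ℝ) + 1) → F' r = 0 :=
    ae_all_iff.2 fun n => h3 _ (by positivity)
  filter_upwards [h6, hF'] with r hr1 hr2 hr3
  rw [hr2]
  obtain ⟨n, hn⟩ := exists_nat_one_div_lt (show 0 < T - r by linarith)
  exact hr1 n (by linarith)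

end Volt
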