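import Mathlib

/-!
Definitions for the theorem on automorphism orbits in the Volterra algebra `L¹[0,1]`.
(This file imports Mathlib only, so that all structures on `L¹[0,1]` are the standard ones.)
-/

namespace Pool.Agent.Results.MP_c24bc3_an.OrbitPairs

open MeasureTheory Set Filter Topology

/-- The space `L¹[0,1]` of classes of integrable complex functions. -/
abbrev L1 : Type := Lp ℂ 1 (volume.restrict (Icc (0:ℝ) 1))

/-- `h` is the truncated convolution product `f * g`: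
`h(t) = ∫₀ᵗ f(s) g(t-s) ds` for almost every `t ∈ [0,1]`. -/
def IsProd (f g h : L1) : Prop :=
  ∀ᵐ t ∂(volume.restrict (Icc (0:ℝ) 1)), h t = ∫ s in (0:ℝ)..t, f s * g (t - s)

/-- `T` is an automorphism of the algebra `L¹[0,1]` (no continuity is assumed). -/
def IsAut (T : L1 →ₗ[ℂ] L1) : Prop :=
  Function.Bijective T ∧ ∀ f g h, IsProd f g h → IsProd (T f) (T g) (T h)

/-- `α(f) = 0`: `f` does not vanish almost everywhere on any interval `[0,δ]`, `δ > 0`. -/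
def AlphaZero (f : L1) : Prop :=
  ∀ δ : ℝ, 0 < δ → ¬ ∀ᵐ t ∂(volume.restrict (Icc (0:ℝ) 1)), t ≤ δ → f t = 0

/-- The class of functions `N` with `Var(N; [0,1-x]) ≤ C/x` for all `0 < x < 1`, for some `C`. -/
def GrowthBV (N : ℝ → ℂ) : Prop :=
  ∃ C : ℝ, ∀ x ∈ Ioo (0:ℝ) 1, eVariationOn N (Icc 0 (1 - x)) ≤ ENNReal.ofReal (C / x)

/-- `b = (N * a)'` on `[0,1)`, i.e. `b` is locally integrable on `[0,1)` and
`∫₀ᵗ b = ∫₀ᵗ N(t-s) a(s) ds` for almost every `t ∈ [0,1]`. -/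
def DConv (N a b : ℝ → ℂ) : Prop :=
  (∀ x ∈ Ico (0:ℝ) 1, IntegrableOn b (Icc 0 x)) ∧
  ∀ᵐ t ∂(volume.restrict (Icc (0:ℝ) 1)),
    ∫ s in (0:ℝ)..t, b s = ∫ s in (0:ℝ)..t, N (t - s) * a s

/-- `g = ∑ⱼ (-1)^j/j! · Cⱼ` where `Cⱼ` arises from `t^j f(t)` by applying `j` times the operation
`a ↦ (N * a)'`; the series converges in `L¹[0,x]` for every `x < 1`. -/
def Expands (N : ℝ → ℂ) (f g : L1) : Prop := ∃ y : ℕ → ℕ → ℝ → ℂ,
  (∀ j, y j 0 = fun t : ℝ => (t:ℂ)^j * f t) ∧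
  (∀ j i, DConv N (y j i) (y j (i+1))) ∧
  ∀ x ∈ Ico (0:ℝ) 1, Tendsto (fun m : ℕ => ∫ t in (0:ℝ)..x,
    ‖g t - ∑ j ∈ Finset.range m, ((-1)^j / (Nat.factorial j : ℂ)) * y j j t‖) atTop (𝓝 0)

/-- `f(t) = c (t^(a-1) + ∫₀ᵗ (t-s)^(a-1) S(s) ds)` for almost every `t`, for some `S` in the class
`GrowthBV`. -/
def PowerType (a c : ℂ) (f : L1) : Prop := ∃ S : ℝ → ℂ, GrowthBV S ∧
  ∀ᵐ t ∂(volume.restrict (Icc (0:ℝ) 1)),
    f t = c * ((t:ℂ)^(a-1) + ∫ s in (0:ℝ)..t, ((t - s : ℝ):ℂ)^(a-1) * S s)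

end Pool.Agent.Results.MP_c24bc3_an.OrbitPairs
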