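import Pool.Agent.Helper98.Volt.Titch
import Pool.Agent.Helper98.Volt.Free

/-!
The parametrisation of the automorphisms of `L¹[0,1]` by the functions `N`, and uniqueness.
-/

set_option linter.unusedSectionVars false
set_option linter.deprecated false

namespace Volt

open MeasureTheory Set Filter Topology

namespace L1

lemma titch_vd : VD.Titch vd := fun _ _ _ h hg => titch h hg

/-- local data of a function of the class -/
theorem bv_data {N : ℝ → ℂ} (hN : BVC N) : ∃ (C : ℕ → L1 →L[ℂ] L1) (K : ℝ) (T : L1 →L[ℂ] L1),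
    vd.CFam C K ∧ Loc N (fun n => C n u) ∧ Function.Bijective T ∧
    (∀ f h, T (f * h) = T f * T h) ∧
    (∀ n f, P (al n) (T f) = P (al n) (vd.TT (C n) f)) ∧
    ∀ f g, Expands N f g ↔ T f = g := by
  obtain ⟨c, hc⟩ := hN
  obtain ⟨Nn, K, hR, hNn⟩ := of_bv hc
  obtain ⟨C, hC, hCN⟩ := hR.toMul
  obtain ⟨T, hT1, hT2, hT3⟩ := VD.form_aut hC
  have hCN' : ∀ n, C n u = Nn n := hCN
  have hloc : Loc N (fun n => C n u) := by
    intro n
    simp only [hCN']
    exact hNn n
  refine ⟨C, K, T, hC, hloc, hT1, hT2, hT3, fun f g => ⟨?_, ?_⟩⟩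
  · rintro ⟨y, h0, h1, h2⟩
    have hyl := loc_iter (C := C) hloc hC (fun n => rfl) h0 h1
    apply VD.ext_al (V := vd)
    intro n
    have h3 := (tendsto_iff_eq (g := g) (fun j => hyl j j) n (al_nonneg n) le_rfl).1
      (h2 _ ⟨al_nonneg n, al_lt_one n⟩)
    exact (h3.trans (hT3 n f).symm).symm
  · rintro rfl
    have hglue : ∀ j i : ℕ, ∃ z : ℝ → ℂ, Loc z (fun n => (C n ^ (i+1)) ((X ^ j) f)) := fun j i =>
      exists_glue fun n => pow_compat hC n (i+1) _
    choose z hz using hglue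
    set y : ℕ → ℕ → ℝ → ℂ := fun j i => match i with
      | 0 => fun t : ℝ => (t:ℂ)^j * f t
      | i+1 => z j i with hy
    have hyl : ∀ j i, Loc (y j i) (fun n => (C n ^ i) ((X ^ j) f)) := by
      intro j i
      cases i with
      | zero => exact loc_base f j
      | succ i => exact hz j i
    refine ⟨y, fun j => rfl, ?_, ?_⟩
    · intro j i
      rw [dconv_iff hloc (hyl j i) hC (fun n => rfl)]
      have h1 := hyl j (i+1)
      intro n
      have h2 := h1 n
      simp only [pow_succ', ContinuousLinearMap.mul_apply] at h2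
      exact h2
    · intro x hx
      obtain ⟨n, hn⟩ := exists_al' hx.2
      rw [tendsto_iff_eq (fun j => hyl j j) n hx.1 hn]
      have h1 := congrArg (P x) (hT3 n f)
      change P x (P (al n) (T f)) = P x (P (al n) (vd.TT (C n) f)) at h1
      rwa [P_P, P_P, min_eq_left hn] at h1

lemma P_u_ne {ε : ℝ} (hε : 0 < ε) : P ε u ≠ 0 := by
  intro h
  have h1 : P (min ε 1) u = 0 := by
    have := congrArg (P (min ε 1)) h
    rwa [P_P, map_zero, min_eq_left (min_le_left _ _)] at this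
  have h2 := norm_Pu (min ε 1) (le_min hε.le zero_le_one) (min_le_right _ _)
  rw [h1, norm_zero] at h2
  have : 0 < min ε 1 := lt_min hε one_pos
  linarith

/-- the automorphism determines the family of multipliers -/
lemma family_unique {C C' : ℕ → L1 →L[ℂ] L1} {K K' : ℝ} {T : L1 →L[ℂ] L1} (hC : vd.CFam C K)
    (hC' : vd.CFam C' K') (hT : ∀ n f, P (al n) (T f) = P (al n) (vd.TT (C n) f))
    (hT' : ∀ n f, P (al n) (T f) = P (al n) (vd.TT (C' n) f)) (n : ℕ) : C n = C' n := by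
  have h1 := VD.CFam.T_u_eq hC hT n
  have h2 := VD.CFam.T_u_eq hC' hT' n
  set g := T vd.u with hg
  have h3 : vd.P (al n) (vd.u * (C n g - C' n g)) = 0 := by
    have e : vd.u * (C n g - C' n g) = (g + vd.u * C n g) - (g + vd.u * C' n g) := by
      rw [mul_sub]; abel
    rw [e, map_sub, h1, h2, sub_self]
  have h4 := vd.u_mul_inj h3
  have h5 : (C n - C' n) g = 0 := by
    rw [ContinuousLinearMap.sub_apply]
    rw [map_sub, (hC.mul n).P_apply, (hC'.mul n).P_apply] at h4
    exact h4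
  have h6 : ∀ ε : ℝ, 0 < ε → vd.P ε g ≠ 0 := fun ε hε =>
    VD.CFam.alpha_T hC (T := T) hT (f := vd.u) (fun ε hε => P_u_ne hε) hε
  have h7 := ((hC.mul n).sub (hC'.mul n)).eq_zero_of_apply titch_vd h6 h5
  exact sub_eq_zero.1 h7

lemma loc_ae_eq {N N' : ℝ → ℂ} {Z : ℕ → L1} (h : Loc N Z) (h' : Loc N' Z) :
    ∀ᵐ t ∂mu0, N t = N' t := by
  have h1 : ∀ᵐ t, ∀ n, t ∈ Ico 0 (al n) → N t = N' t := by
    rw [ae_all_iff]
    intro n
    filter_upwards [h n, h' n] with t h1 h2 h3
    rw [h1 h3, h2 h3]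
  rw [mu0_eq, ae_restrict_iff' measurableSet_Ico]
  filter_upwards [h1] with t ht ht1
  obtain ⟨n, hn⟩ := exists_al' ht1.2
  have h2 : t < al (n+1) := hn.trans_lt (by
    unfold al
    have : ((1:ℝ)/2)^(n+1) < (1/2)^n := by
      rw [pow_succ]
      have : (0:ℝ) < (1/2)^n := by positivity
      linarith
    linarith)
  exact ht (n+1) ⟨ht1.1, h2⟩

/-- **Uniqueness of `N`.** -/
theorem N_unique {N N' : ℝ → ℂ} (hN : BVC N) (hN' : BVC N') {f g : L1}
    (hf : ∀ ε : ℝ, 0 < ε → P ε f ≠ 0) (h : Expands N f g) (h' : Expands N' f g) :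
    ∀ᵐ t ∂mu0, N t = N' t := by
  obtain ⟨C, K, T, hC, hloc, hb, hm, hT, hE⟩ := bv_data hN
  obtain ⟨C', K', T', hC', hloc', hb', hm', hT', hE'⟩ := bv_data hN'
  have e1 : (T : L1 →ₗ[ℂ] L1) = (T' : L1 →ₗ[ℂ] L1) := by
    apply VD.aut_unique (V := vd) span_dense titch_vd _ _ hb hm hb' hm' hf
    change T f = T' f
    rw [(hE f g).1 h, (hE' f g).1 h']
  have e2 : T = T' := by
    ext1 x
    exact congrArg (fun S : L1 →ₗ[ℂ] L1 => S x) e1
  rw [← e2] at hT'
  have e3 := family_unique hC hC' hT hT'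
  have e4 : Loc N' (fun n => C n u) := by
    intro n
    have h1 := hloc' n
    simp only [← e3] at h1
    exact h1
  exact loc_ae_eq hloc e4

end L1

end Volt
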