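import Pool.Agent.Helper98.Volt.Growth

/-!
Orbits of the elements `c v` where `X v = a u v`.
-/

set_option linter.unusedSectionVars false
set_option linter.deprecated false

namespace Volt

open Filter Topology

variable {A : Type*} [NonUnitalNormedCommRing A] [NormedSpace ℂ A] [IsScalarTower ℂ A A]
  [SMulCommClass ℂ A A]

namespace VD

variable {V : VD A}

/-- rising factorials -/
noncomputable def rf (a : ℂ) : ℕ → ℂ
  | 0 => 1
  | j+1 => rf a j * (a + j)

lemma rf_succ (a : ℂ) (j : ℕ) : rf a (j+1) = rf a j * (a + j) := rfl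

lemma X_U_pow_v {a : ℂ} {v : A} (hv : V.X v = a • (V.u * v)) (j : ℕ) :
    V.X ((V.U ^ j) v) = (a + j) • (V.U ^ (j+1)) v := by
  induction j with
  | zero => simp [hv, U_apply]
  | succ j ih =>
    rw [pow_succ' V.U j, ContinuousLinearMap.mul_apply, U_apply, V.X_mul, V.X_u, ih,
      pow_succ' V.U (j+1), ContinuousLinearMap.mul_apply, U_apply, pow_succ' V.U j,
      ContinuousLinearMap.mul_apply, U_apply, mul_smul_comm, mul_assoc]
    push_cast
    rw [← add_assoc, add_smul, add_smul, add_smul, one_smul]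
    abel

lemma X_pow_v {a : ℂ} {v : A} (hv : V.X v = a • (V.u * v)) (j : ℕ) :
    (V.X ^ j) v = rf a j • (V.U ^ j) v := by
  induction j with
  | zero => simp [rf]
  | succ j ih =>
    rw [pow_succ' V.X, ContinuousLinearMap.mul_apply, ih, map_smul, X_U_pow_v hv, smul_smul,
      rf_succ]

lemma bc_neg (a : ℂ) (j : ℕ) : bc (-a) j = (Nat.factorial j : ℂ)⁻¹ * ((-1) ^ j * rf a j) := by
  induction j with
  | zero => simp [rf]
  | succ j ih =>
    rw [bc_succ, ih, rf_succ, Nat.factorial_succ]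
    have h1 : ((j:ℂ) + 1) ≠ 0 := by exact_mod_cast Nat.succ_ne_zero j
    have h2 : (Nat.factorial j : ℂ) ≠ 0 := by exact_mod_cast Nat.factorial_ne_zero j
    push_cast
    field_simp
    ring

omit [IsScalarTower ℂ A A] [SMulCommClass ℂ A A] in
lemma neg_pow_ap (C : A →L[ℂ] A) (m : ℕ) (w : A) :
    ((-C) ^ m) w = ((-1:ℂ) ^ m) • (C ^ m) w := by
  induction m generalizing w with
  | zero => simp
  | succ m ih =>
    rw [pow_succ (-C), pow_succ C, ContinuousLinearMap.mul_apply, ContinuousLinearMap.mul_apply, ih,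
      ContinuousLinearMap.neg_apply, map_neg, pow_succ (-1:ℂ), mul_neg_one, neg_smul, smul_neg]

variable [CompleteSpace A]

lemma IsMul.TT_power {b : ℝ} {C : A →L[ℂ] A} (hC : V.IsMul b C) {v : A} {a : ℂ}
    (hv : V.X v = a • (V.u * v)) : V.TT C v = V.bs (-a) C v := by
  have h1 := V.hasSum_TT_apply C v
  have h2 : HasSum (fun j => (bc (-a) j • (C * V.U) ^ j) v) (V.bs (-a) C v) :=
    (hC.hasSum_bs (-a)).mapL (ContinuousLinearMap.apply ℂ A v)
  refine h1.unique ?_
  have e : (fun j => V.tt C j v) = fun j => (bc (-a) j • (C * V.U) ^ j) v := by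
    funext j
    have h3 : (C ^ j) ((V.U ^ j) v) = ((C * V.U) ^ j) v := by
      cases j with
      | zero => simp
      | succ j => rw [IsMul.CU_pow V hC]
    rw [tt_apply, X_pow_v hv, map_smul, ContinuousLinearMap.smul_apply, bc_neg, neg_pow_ap,
      h3, smul_smul, smul_smul]
    congr 1
    ring
  rw [e]; exact h2

/-- `T v = v + v * R` -/
lemma CFam.T_power {C : ℕ → A →L[ℂ] A} {K : ℝ} (hC : V.CFam C K) {v : A} {a : ℂ}
    (hv : V.X v = a • (V.u * v)) {T : A → A}
    (hT : ∀ n f, V.P (al n) (T f) = V.P (al n) (V.TT (C n) f)) (n : ℕ) :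
    V.P (al n) (T v) = V.P (al n) (v + v * V.Lc (-a) (C n) V.u) := by
  rw [hT, (hC.mul n).TT_power hv, bs, ContinuousLinearMap.add_apply, ContinuousLinearMap.mul_apply,
    ContinuousLinearMap.one_apply, U_apply, ((hC.mul n).Lc (-a)), map_add, map_add, V.P_idem,
    mul_comm v]

/-- `g = w + w * R` for a family `R` of the class -/
def PF (V : VD A) (w g : A) : Prop := ∃ (R : ℕ → A) (K : ℝ), V.RFam R K ∧
  ∀ n, V.P (al n) g = V.P (al n) (w + w * R n)

lemma PF_smul {w g : A} {c : ℂ} (h : V.PF w g) : V.PF (c • w) (c • g) := by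
  obtain ⟨R, K, hR, h1⟩ := h
  refine ⟨R, K, hR, fun n => ?_⟩
  rw [map_smul, h1, smul_mul_assoc, ← smul_add, map_smul]

lemma PF_of_smul {w g : A} {c : ℂ} (h : V.PF (c • w) g) : ∃ g', V.PF w g' ∧ g = c • g' := by
  by_cases hc : c = 0
  · subst hc
    obtain ⟨R, K, hR, h1⟩ := h
    refine ⟨w, ⟨fun _ => 0, 0, ⟨le_rfl, fun n => map_zero _, fun n => ?_⟩, fun n => ?_⟩, ?_⟩
    · unfold Lip
      refine Eventually.of_forall fun h => ?_
      simp
    · simp
    · apply V.ext_al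
      intro n
      rw [h1]; simp
  · refine ⟨c⁻¹ • g, ?_, ?_⟩
    · have := PF_smul (c := c⁻¹) h
      rwa [smul_smul, inv_mul_cancel₀ hc, one_smul] at this
    · rw [smul_smul, mul_inv_cancel₀ hc, one_smul]

/-- the orbit of `v` -/
theorem power_orbit_one
    (hd : (Submodule.span ℂ (Set.range fun j : ℕ => (V.U ^ j) V.u)).topologicalClosure = ⊤)
    {a : ℂ} (ha : a ≠ 0) {v : A} (hv : V.X v = a • (V.u * v)) (g : A) :
    (∃ T : A →ₗ[ℂ] A, Function.Bijective T ∧ (∀ f h, T (f * h) = T f * T h) ∧ T v = g) ↔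
      V.PF v g := by
  constructor
  · rintro ⟨T, h1, h2, rfl⟩
    obtain ⟨C, K, hC, hT⟩ := aut_form hd T h1 h2
    exact ⟨fun n => V.Lc (-a) (C n) V.u, _, (hC.Lc (-a)).toN, fun n => hC.T_power hv hT n⟩
  · rintro ⟨R, K, hR, hg⟩
    obtain ⟨D, hD, hDR⟩ := hR.toMul
    have hC := hD.Lc (-a⁻¹)
    obtain ⟨T, hT1, hT2, hT3⟩ := form_aut hC
    refine ⟨T, hT1, hT2, ?_⟩
    apply V.ext_al
    intro n
    have h1 := hC.T_power hv hT3 n
    have h2 : V.Lc (-a) (V.Lc (-a⁻¹) (D n)) = D n :=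
      (hD.mul n).Lc_Lc (by rw [neg_mul_neg, mul_inv_cancel₀ ha])
    rw [h2, hDR] at h1
    rw [hg]; exact h1

/-- **Orbits of all elements `c (v + v * S)`.** -/
theorem power_orbit
    (hd : (Submodule.span ℂ (Set.range fun j : ℕ => (V.U ^ j) V.u)).topologicalClosure = ⊤)
    {a : ℂ} (ha : a ≠ 0) {v : A} (hv : V.X v = a • (V.u * v)) {c : ℂ} {f : A}
    (hf : V.PF (c • v) f) (g : A) :
    (∃ T : A →ₗ[ℂ] A, Function.Bijective T ∧ (∀ f h, T (f * h) = T f * T h) ∧ T f = g) ↔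
      V.PF (c • v) g := by
  obtain ⟨f', hf', rfl⟩ := PF_of_smul hf
  obtain ⟨T₁, h1, h2, rfl⟩ := (power_orbit_one hd ha hv f').2 hf'
  constructor
  · rintro ⟨T, h3, h4, rfl⟩
    rw [map_smul]
    apply PF_smul
    exact (power_orbit_one hd ha hv _).1 ⟨T ∘ₗ T₁, h3.comp h1, fun x y => by
      rw [LinearMap.comp_apply, h2, h4]; rfl, rfl⟩
  · intro hg
    obtain ⟨g', hg', rfl⟩ := PF_of_smul hg
    obtain ⟨T₂, h3, h4, rfl⟩ := (power_orbit_one hd ha hv g').2 hg'
    let e : A ≃ₗ[ℂ] A := LinearEquiv.ofBijective T₁ h1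
    have he : ∀ x, T₁ (e.symm x) = x := fun x => e.apply_symm_apply x
    have he' : ∀ x, e.symm (T₁ x) = x := fun x => e.symm_apply_apply x
    refine ⟨T₂ ∘ₗ (e.symm : A →ₗ[ℂ] A), h3.comp e.symm.bijective, fun x y => ?_, ?_⟩
    · change T₂ (e.symm (x * y)) = T₂ (e.symm x) * T₂ (e.symm y)
      rw [← h4]
      congr 1
      apply h1.1
      rw [he, h2, he, he]
    · change T₂ (e.symm (c • T₁ v)) = c • T₂ v
      rw [← map_smul, he', map_smul]

end VD

end Volt
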