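import Pool.Agent.Helper98.Volt.TitchX
import Pool.Agent.Helper98.Volt.Moments
import Pool.Agent.Helper56.Volt.Conc2

/-!
Titchmarsh's theorem in `L¹[0,1]`: if `f * g = 0` on `[0,T)` and `α(g) = 0` then `f = 0` on `[0,T)`.
-/

set_option linter.unusedSectionVars false
set_option linter.deprecated false

namespace Volt

open MeasureTheory Set Filter Topology

namespace L1

lemma titch_half {T : ℝ} {f g : L1} (hT : 0 ≤ T) (hT2 : T ≤ 1/2) (h : P T (f * g) = 0)
    (hg : ∀ ε : ℝ, 0 < ε → P ε g ≠ 0) : P T f = 0 := by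
  have h1 : ∀ n : ℕ, P T (f * (X ^ n) g) = 0 := fun n => vd.titch_X_pow hT hT2 h n
  have h2 : ∀ n : ℕ, ∀ᵐ t : ℝ, t < T → ∫ s : ℝ, (s:ℂ)^n * (rep g s * rep f (t - s)) = 0 := by
    intro n
    have e1 : rep (f * (X ^ n) g) =ᵐ[volume]
        (Ico (0:ℝ) 1).indicator (cv (rep f) (rep ((X ^ n) g))) := rep_conv _ _
    have e2 : cv (rep f) (rep ((X ^ n) g)) = cv (fun s : ℝ => (s:ℂ)^n * rep g s) (rep f) := by
      rw [cv_congr (EventuallyEq.refl _ _) (rep_X_pow n g), cv_comm]
    rw [e2] at e1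
    filter_upwards [P_eq_zero_iff.1 (h1 n), e1] with t h3 h4 h5
    have h6 := h3 h5
    have e3 : ∫ s : ℝ, (s:ℂ)^n * (rep g s * rep f (t - s))
        = cv (fun s : ℝ => (s:ℂ)^n * rep g s) (rep f) t := by
      simp only [cv]
      congr 1; ext s; ring
    rw [e3]
    rcases lt_or_ge t 0 with ht | ht
    · exact cv_neg (fun s hs => by rw [rep_neg g hs, mul_zero]) (fun s hs => rep_neg f hs) ht
    · have ht1 : t ∈ Ico (0:ℝ) 1 := ⟨ht, by linarith⟩
      rw [h6, indicator_of_mem ht1] at h4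
      exact h4.symm
  have h3 := ae_all_iff.2 h2
  have h4 := (integrable_rep g).ae_convolution_exists (ContinuousLinearMap.mul ℂ ℂ) (integrable_rep f)
  rw [P_eq_zero_iff]
  apply ae_zero_of_prod (integrable_rep f).aestronglyMeasurable (integrable_rep g).aestronglyMeasurable
  · filter_upwards [h3, h4] with t ht1 ht2 htT
    have hi : Integrable (fun s : ℝ => rep g s * rep f (t - s)) := ht2
    have := ae_zero_of_moments hi (fun s hs => by
      rw [rep_zero_of_notMem g (fun h => hs ⟨h.1, h.2.le⟩), zero_mul]) (fun n => ht1 n htT)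
    filter_upwards [this] with s hs
    rw [mul_comm]; exact hs
  · intro ε hε hcon
    exact hg ε hε (P_eq_zero_iff.2 hcon)

/-- **Titchmarsh's convolution theorem** (case `α(g) = 0`). -/
theorem titch {T : ℝ} {f g : L1} (h : P T (f * g) = 0) (hg : ∀ ε : ℝ, 0 < ε → P ε g ≠ 0) :
    P T f = 0 :=
  vd.titch_ext (g := g) (fun T f h0 h1 h2 => titch_half h0 h1 h2 hg) T f h

end L1

end Volt
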