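import Pool.Agent.Helper56.Volt.Orbit

/-!
Titchmarsh's theorem in the abstract Volterra algebra, first part: if `f * g` vanishes on `[0,T)`,
`T ≤ 1/2`, then `f * (X g)` vanishes on `[0,T)`.
-/

set_option linter.unusedSectionVars false
set_option linter.deprecated false

namespace Volt

open Filter Topology

variable {A : Type*} [NonUnitalNormedCommRing A] [NormedSpace ℂ A] [IsScalarTower ℂ A A]
  [SMulCommClass ℂ A A]

namespace VD

variable (V : VD A)

lemma P_zero_of_le {a b : ℝ} (h : a ≤ b) {f : A} (hf : V.P b f = 0) : V.P a f = 0 := by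
  rw [← V.P_P_le h f, hf, map_zero]

/-- the bootstrapping property with parameter `α` -/
def Boot (α : ℝ) : Prop := ∀ (T : ℝ) (f g : A), 0 ≤ T → T ≤ 1/2 → V.P T (f * g) = 0 →
  V.P (α * T) (f * V.X g) = 0

lemma boot_zero : V.Boot 0 := by
  intro T f g _ _ _
  rw [zero_mul]
  exact V.P_nonpos 0 le_rfl _

lemma boot_step {α : ℝ} (h0 : 0 ≤ α) (h1 : α ≤ 1) (h : V.Boot α) : V.Boot ((1 + α^2)/2) := by
  intro T f g hT hT2 hfg
  set h' := f * V.X g with hh
  set k := V.X f * g with hk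
  have e1 : V.X (f * g) = h' + k := by rw [V.X_mul, hh, hk, add_comm]
  have e2 : V.P T (h' + k) = 0 := by rw [← e1, V.P_X, hfg, map_zero]
  have e3 : V.P (α * T) h' = 0 := h T f g hT hT2 hfg
  have hαT : 0 ≤ α * T := mul_nonneg h0 hT
  have e4 : V.P (α * T + T) (h' * (h' + k)) = 0 := V.mul_P_eq_zero hαT hT e3 e2
  have e5 : V.P (α * (α * T)) (V.X g * V.X f) = 0 := by
    apply h (α * T) (V.X g) f hαT (by nlinarith)
    rw [mul_comm (V.X g) f]; exact e3
  have e6 : V.P (T + α * (α * T)) ((f * g) * (V.X g * V.X f)) = 0 :=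
    V.mul_P_eq_zero hT (by positivity) hfg e5
  have e7 : h' * k = (f * g) * (V.X g * V.X f) := by
    rw [hh, hk]
    calc f * V.X g * (V.X f * g) = f * (V.X g * (V.X f * g)) := mul_assoc _ _ _
      _ = f * ((V.X g * V.X f) * g) := by rw [mul_assoc]
      _ = f * (g * (V.X g * V.X f)) := by rw [mul_comm _ g]
      _ = _ := (mul_assoc _ _ _).symm
  have e8 : h' * h' = h' * (h' + k) - (f * g) * (V.X g * V.X f) := by
    rw [← e7, mul_add]; abel
  have hle : T + α * (α * T) ≤ α * T + T := by nlinarith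
  have e9 : V.P (2 * ((1 + α^2)/2 * T)) (h' * h') = 0 := by
    have e10 : 2 * ((1 + α^2)/2 * T) = T + α * (α * T) := by ring
    rw [e10, e8, map_sub, V.P_zero_of_le hle e4, e6, sub_zero]
  have hα2 : α^2 ≤ 1 := by nlinarith
  apply V.square _ (by positivity) _ _ e9
  nlinarith

/-- the sequence of parameters -/
noncomputable def bt : ℕ → ℝ
  | 0 => 0
  | n + 1 => (1 + (bt n)^2)/2

lemma bt_bounds (n : ℕ) : 0 ≤ bt n ∧ bt n ≤ 1 ∧ 1 - bt n ≤ 2 / ((n:ℝ) + 2) := by
  induction n with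
  | zero => simp [bt]
  | succ n ih =>
    obtain ⟨h1, h2, h3⟩ := ih
    have e : bt (n+1) = (1 + (bt n)^2)/2 := rfl
    refine ⟨by rw [e]; positivity, by rw [e]; nlinarith, ?_⟩
    rw [e]
    set d := 1 - bt n with hd
    have hd0 : 0 ≤ d := by linarith
    have hd1 : d ≤ 1 := by linarith
    have hb : bt n = 1 - d := by linarith
    rw [hb]
    have e1 : 1 - (1 + (1 - d)^2)/2 = d - d^2/2 := by ring
    rw [e1]
    set m : ℝ := (n:ℝ) + 2 with hm
    have hm2 : (2:ℝ) ≤ m := by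
      have : (0:ℝ) ≤ n := Nat.cast_nonneg n
      linarith
    set q := 2 / m with hq
    have hq1 : q ≤ 1 := by rw [hq, div_le_one (by linarith)]; exact hm2
    have hq0 : 0 ≤ q := by positivity
    have e2 : d - d^2/2 ≤ q - q^2/2 := by nlinarith
    have e3 : q - q^2/2 ≤ 2 / (((n+1 : ℕ) : ℝ) + 2) := by
      have e4 : (((n+1 : ℕ) : ℝ) + 2) = m + 1 := by push_cast; ring
      rw [e4, hq]
      rw [le_div_iff₀ (by linarith)]
      have hm0 : m ≠ 0 := by linarith
      have e5 : (2 / m - (2 / m)^2/2) * (m + 1) = 2 - 2 / m^2 := by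
        field_simp
        ring
      rw [e5]
      have : 0 ≤ 2 / m^2 := by positivity
      linarith
    exact e2.trans e3

lemma boot_bt (n : ℕ) : V.Boot (bt n) := by
  induction n with
  | zero => exact V.boot_zero
  | succ n ih => exact V.boot_step (bt_bounds n).1 (bt_bounds n).2.1 ih

/-- if `f * g` vanishes on `[0,T)` then so does `f * X g` (`T ≤ 1/2`) -/
theorem titch_X {T : ℝ} {f g : A} (hT : 0 ≤ T) (hT2 : T ≤ 1/2) (h : V.P T (f * g) = 0) :
    V.P T (f * V.X g) = 0 := by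
  apply V.P_eq_zero_of_lt
  intro b hb
  rcases le_or_gt b 0 with hb0 | hb0
  · exact V.P_nonpos b hb0 _
  have hTpos : 0 < T := hb0.trans hb
  -- choose n with b ≤ bt n * T
  obtain ⟨n, hn⟩ := exists_nat_gt (2 * T / (T - b))
  have h1 := (bt_bounds n).2.2
  have hn0 : (0:ℝ) < n + 2 := by positivity
  have h2 : 2 / ((n:ℝ) + 2) * T ≤ T - b := by
    have hTb : 0 < T - b := by linarith
    rw [div_lt_iff₀ hTb] at hn
    rw [div_mul_eq_mul_div, div_le_iff₀ hn0]
    nlinarith
  have h3 : b ≤ bt n * T := by nlinarith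
  exact V.P_zero_of_le h3 (V.boot_bt n T f g hT hT2 h)

theorem titch_X_pow {T : ℝ} {f g : A} (hT : 0 ≤ T) (hT2 : T ≤ 1/2) (h : V.P T (f * g) = 0)
    (n : ℕ) : V.P T (f * (V.X ^ n) g) = 0 := by
  induction n with
  | zero => simpa using h
  | succ n ih =>
    rw [pow_succ', ContinuousLinearMap.mul_apply]
    exact V.titch_X hT hT2 ih

/-- extension from `T ≤ 1/2` to all `T` -/
theorem titch_ext {g : A} (hg : ∀ (T : ℝ) (f : A), 0 ≤ T → T ≤ 1/2 → V.P T (f * g) = 0 →
    V.P T f = 0) (T : ℝ) (f : A) (h : V.P T (f * g) = 0) : V.P T f = 0 := by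
  -- first `T ≤ 1`
  have key : ∀ T : ℝ, T ≤ 1 → ∀ f : A, V.P T (f * g) = 0 → V.P T f = 0 := by
    intro T hT f h
    rcases le_or_gt T 0 with h0 | h0
    · exact V.P_nonpos T h0 f
    rcases le_or_gt T (1/2) with h1 | h1
    · exact hg T f h0.le h1 h
    have hs : (0:ℝ) ≤ 1/2 := by norm_num
    have e1 : V.P (1/2) f = 0 := hg (1/2) f hs le_rfl (V.P_zero_of_le h1.le h)
    set f' := V.R (1/2) f with hf'
    have e2 : V.S (1/2) f' = f := V.eq_S_of_P_eq_zero hs e1
    have e3 : V.S (1/2) (V.P (T - 1/2) (f' * g)) = 0 := by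
      rw [← V.P_S T (1/2) hs, V.S_mul _ hs, e2, h]
    have e4 : V.P (T - 1/2) (f' * g) = 0 := by
      have := V.R_S (1/2) hs (V.P (T - 1/2) (f' * g))
      rw [e3, map_zero, V.P_P, min_eq_right (by linarith)] at this
      exact this.symm
    have e5 : V.P (T - 1/2) f' = 0 := hg _ _ (by linarith) (by linarith) e4
    rw [← e2, V.P_S T (1/2) hs, e5, map_zero]
  rcases le_or_gt T 1 with h1 | h1
  · exact key T h1 f h
  · have h2 : V.P 1 (f * g) = 0 := V.P_zero_of_le h1.le h
    have h3 := key 1 le_rfl f h2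
    rw [V.P_one_le 1 le_rfl] at h3
    rw [h3, map_zero]

end VD

end Volt
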